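import Pool.Agent.TH376.TC.FrobC

/-!
# The kernel of the Abel–Jacobi map and cubic hypersurfaces
-/

set_option autoImplicit false

open CategoryTheory CategoryTheory.Limits AlgebraicGeometry

namespace Pool.Agent.TH376.TC

open Pool.Agent.TH90.Cub

/-- The rational motivic Borel–Moore homology of the varieties over a subfield `k` of `ℂ`, and its
cycle classes in absolute Hodge homology. The group `H (2 * j) j X` is the group `CH_j(X)` of
`j`-dimensional cycles modulo rational equivalence, tensored with `ℚ`. -/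
structure AJTheory (k : Type) [Field k] extends HMaps k ℚ where
  /-- the mixed Hodge structures: `Hdg j X` stands for the rational Borel–Moore homology
  `H_(2j)(X(ℂ))(-j)`, `Jac j X` for the group of extensions of `ℚ(0)` by `H_(2j+1)(X(ℂ))(-j)` -/
  Hdg : ℤ → Sch k → Type
  Jac : ℤ → Sch k → Type
  zeroHdg : ∀ j X, Zero (Hdg j X)
  zeroJac : ∀ j X, Zero (Jac j X)
  /-- the cycle class -/
  cl : ∀ (j : ℤ) (X : Sch k), H (2 * j) j X → Hdg j X
  /-- the Abel–Jacobi map, defined on the homologically trivial cycles (the value at other elements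
  plays no role) -/
  aj : ∀ (j : ℤ) (X : Sch k), H (2 * j) j X → Jac j X

attribute [instance] AJTheory.zeroHdg AJTheory.zeroJac

section

variable {k : Type} [Field k]

/-- `X` is an open subscheme of a projective variety over `k`. -/
def QProj (X : Sch k) : Prop :=
  ∃ (Y : Sch k) (j : X ⟶ Y), IsProj Y ∧ IsProper Y.hom ∧ IsOpenImmersion j.left

namespace AJTheory

variable (T : AJTheory k)

/-- `x` is homologically trivial and its image under the Abel–Jacobi map is zero. -/
def Trivial (j : ℤ) (X : Sch k) (x : T.H (2 * j) j X) : Prop :=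
  T.cl j X x = 0 ∧ T.aj j X x = 0

/-- The Abel–Jacobi map is injective on the homologically trivial cycles on `X`. -/
def Injective (X : Sch k) : Prop := ∀ (j : ℤ) (x : T.H (2 * j) j X), T.Trivial j X x → x = 0

/-- The known facts: functoriality of the cycle class and of the Abel–Jacobi map for push-forward
and pull-back; Jouanolou's trick for quasi-projective varieties; affine varieties are
quasi-projective. -/
structure Known : Prop where
  push : ∀ {Z X : Sch k} (i : Z ⟶ X) (h : IsClosedImmersion i.left) (j : ℤ)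
    (z : T.H (2 * j) j Z), T.Trivial j Z z → T.Trivial j X (T.push i h z)
  pull : ∀ {U B : Sch k} (q : U ⟶ B) (d : ℕ) (h : LocTriv q.left d) (j j' : ℤ)
    (ha : 2 * j' = 2 * j + 2 * d) (hb : j' = j + d) (x : T.H (2 * j) j B),
    T.Trivial j B x → T.Trivial j' U (T.pull q d h ha hb x)
  isVar : ∀ X : Sch k, QProj X → IsVar X
  jouanolou : ∀ X : Sch k, QProj X → HasAffineBundle X
  affine : ∀ (D : Type) [CommRing D] [Algebra k D], Algebra.FiniteType k D → QProj (aff k D)

variable {T}

theorem injective_iff (hH : HProps T.toHMaps) (hT : T.Known) {S : Set k}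
    (hS : Subfield.closure S = ⊤) (h1 : (1 : k) ∈ S) :
    (∀ X : Sch k, QProj X → T.Injective X) ↔ ForCubics S T.Injective := by
  constructor
  · intro h n r g _
    exact h _ (hT.affine _ (cone_ft g))
  · intro h X hX j x hx
    obtain ⟨D, _, _, q, d, hD, hq⟩ := hT.jouanolou X hX
    obtain ⟨n, r, g, f, i, hf, hi, hg, hinj⟩ := exists_cone hS h1 D hD
    have hXv := hT.isVar X hX
    have hDv : IsVar (aff k D) := aff_var D hD
    have a1 : 2 * (j + d) = 2 * j + 2 * (d : ℤ) := by ring
    have b1 : j + (d : ℤ) = j + d := rfl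
    have a2 : 2 * (j + d + ((r + 1 : ℕ) : ℤ)) = 2 * (j + d) + 2 * ((r + 1 : ℕ) : ℤ) := by ring
    have b2 : j + (d : ℤ) + ((r + 1 : ℕ) : ℤ) = j + (d : ℤ) + ((r + 1 : ℕ) : ℤ) := rfl
    have h3 := hT.push i hi _ _ (hT.pull f (r + 1) hf (j + d) _ a2 b2 _
      (hT.pull q d hq j _ a1 b1 x hx))
    have h4 := h n r g hg _ _ h3
    exact hH.inj q d hq hXv _ _ _ _ a1 b1 x (hH.inj f (r + 1) hf hDv _ _ _ _ a2 b2 _
      (hinj ℚ T.toHMaps hH _ _ _ h4))

end AJTheory

end

end Pool.Agent.TH376.TC
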