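import Mathlib

/-!
# Rational structures
-/

set_option autoImplicit false

namespace Pool.Agent.TH376.TC

/-- `B` is a rational structure of the vector space `M` over `K`: the set of the linear
combinations with rational coefficients of the elements of a basis of `M` over `K`. -/
def IsRational (K : Type) {M : Type} [Field K] [AddCommGroup M] [Module K M] (B : Set M) : Prop :=
  ∃ (ι : Type) (b : Module.Basis ι K M), ∀ x, x ∈ B ↔ ∀ j, ∃ q : ℚ, b.repr x j = (q : K)

variable {K : Type} [Field K] [CharZero K]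

/-- the projection to the rational structure attached to an additive function on the field -/
theorem exists_proj {M : Type} [AddCommGroup M] [Module K M] {B : Set M}
    (hB : IsRational K B) (ψ : K →+ ℚ) :
    ∃ Ψ : M →+ M, (∀ x, Ψ x ∈ B) ∧
      (∀ (a : K) (v : M), v ∈ B → Ψ (a • v) = (ψ a : K) • v) := by
  obtain ⟨ι, b, hb⟩ := hB
  let φ : K →+ K := ((Rat.castHom K : ℚ →+* K) : ℚ →+ K).comp ψ
  let F : (ι →₀ K) →+ (ι →₀ K) := Finsupp.mapRange.addMonoidHom φ
  let Ψ : M →+ M := (b.repr.symm : (ι →₀ K) ≃ₗ[K] M).toLinearMap.toAddMonoidHom.comp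
    (F.comp (b.repr : M ≃ₗ[K] (ι →₀ K)).toLinearMap.toAddMonoidHom)
  have hΨ : ∀ x, b.repr (Ψ x) = F (b.repr x) := by
    intro x
    change b.repr (b.repr.symm (F (b.repr x))) = _
    rw [LinearEquiv.apply_symm_apply]
  refine ⟨Ψ, fun x => ?_, fun a v hv => ?_⟩
  · rw [hb]
    intro j
    exact ⟨ψ (b.repr x j), by rw [hΨ]; rfl⟩
  · apply b.repr.injective
    rw [hΨ]
    ext j
    obtain ⟨q, hq⟩ := (hb v).mp hv j
    rw [map_smul b.repr, map_smul b.repr]
    change ((ψ ((a • b.repr v) j) : ℚ) : K) = ((ψ a : K) • b.repr v) j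
    rw [Finsupp.smul_apply, Finsupp.smul_apply, smul_eq_mul, smul_eq_mul, hq]
    have h1 : ψ (a * (q : K)) = ψ a * q := by
      have h2 : a * (q : K) = q • a := by rw [Rat.smul_def, mul_comm]
      rw [h2]
      have h3 := map_rat_smul ψ q a
      rw [h3, smul_eq_mul, mul_comm]
    rw [h1, Rat.cast_mul]

omit [CharZero K] in
theorem IsRational.span {M : Type} [AddCommGroup M] [Module K M] {B : Set M}
    (hB : IsRational K B) : Submodule.span K B = ⊤ := by
  obtain ⟨ι, b, hb⟩ := hB
  rw [eq_top_iff, ← b.span_eq]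
  apply Submodule.span_mono
  rintro _ ⟨j, rfl⟩
  rw [hb]
  intro l
  by_cases h : j = l
  · exact ⟨1, by simp [h]⟩
  · exact ⟨0, by simp [h]⟩

section

variable {M N : Type} [AddCommGroup M] [Module K M] [AddCommGroup N] [Module K N]
  {B : Set M} {C : Set N}

theorem proj_comm (hB : IsRational K B) (i : M →ₗ[K] N) (hi : ∀ v ∈ B, i v ∈ C) (ψ : K →+ ℚ)
    (ΨM : M →+ M) (hM : ∀ (a : K) (v : M), v ∈ B → ΨM (a • v) = (ψ a : K) • v)
    (ΨN : N →+ N) (hN : ∀ (a : K) (v : N), v ∈ C → ΨN (a • v) = (ψ a : K) • v) (x : M) :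
    ΨN (i x) = i (ΨM x) := by
  have hx : x ∈ Submodule.span K B := by
    rw [hB.span]
    trivial
  have h : ∀ a : K, ΨN (i (a • x)) = i (ΨM (a • x)) := by
    induction hx using Submodule.span_induction with
    | mem v hv =>
      intro a
      rw [hM a v hv, i.map_smul, i.map_smul, hN a _ (hi v hv)]
    | zero =>
      intro a
      rw [smul_zero, map_zero, map_zero, map_zero, map_zero]
    | add x y _ _ hx hy =>
      intro a
      rw [smul_add, map_add, map_add, map_add, map_add, hx, hy]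
    | smul c x _ hx =>
      intro a
      rw [smul_smul]
      exact hx _
  have := h 1
  rwa [one_smul] at this

/-- **Rationality is reflected by injective maps.** -/
theorem rational_of_inj (hB : IsRational K B) (hC : IsRational K C) (i : M →ₗ[K] N)
    (hi : ∀ v ∈ B, i v ∈ C) (hinj : ∀ z, i z = 0 → z = 0) (x : M) (hx : i x ∈ C) : x ∈ B := by
  obtain ⟨ρ, hρ⟩ := (Algebra.linearMap ℚ K).exists_leftInverse_of_injective
    (LinearMap.ker_eq_bot.mpr (algebraMap ℚ K).injective)
  have h1 : ρ 1 = 1 := by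
    have := LinearMap.congr_fun hρ 1
    simpa using this
  obtain ⟨ΨM, hM1, hM⟩ := exists_proj hB ρ.toAddMonoidHom
  obtain ⟨ΨN, hN1, hN⟩ := exists_proj hC ρ.toAddMonoidHom
  have h2 := proj_comm hB i hi ρ.toAddMonoidHom ΨM hM ΨN hN x
  have h3 := hN 1 (i x) hx
  have h4 : ρ.toAddMonoidHom (1 : K) = 1 := h1
  rw [one_smul, h4, Rat.cast_one, one_smul] at h3
  rw [h3] at h2
  have h5 : x = ΨM x := by
    refine sub_eq_zero.mp (hinj _ ?_)
    rw [map_sub, ← h2, sub_self]
  rw [h5]
  exact hM1 x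

end

end Pool.Agent.TH376.TC
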