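import Pool.Agent.TH376.TC.Hom
import Pool.Agent.TH376.TC.Rat

/-!
# Hodge classes on conjugate varieties
-/

set_option autoImplicit false

open CategoryTheory CategoryTheory.Limits AlgebraicGeometry

namespace Pool.Agent.TH376.TC

open Pool.Agent.TH90.Cub

/-- A Borel–Moore homology theory `H a b X` with coefficients in `K` for the varieties `X` over `k`
(algebraic de Rham homology with `K = k = ℂ`, or `ℓ`-adic étale homology with `K = ℚ_ℓ`), and the
Betti homology and the Hodge classes of the conjugate varieties `X_s`, `s` in `E`. -/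
structure Conjugates (k K : Type) [Field k] [Field K] extends HMaps k K where
  /-- the automorphisms of `k`, or the embeddings of `k` into `ℂ` -/
  E : Type
  /-- the elements of `H a b X` whose transport to `X_s` belongs to the rational Betti
  homology of `X_s` -/
  B : E → ∀ (a b : ℤ) (X : Sch k), Set (H a b X)
  /-- the elements of `H (2j) j X` whose transport to `X_s` is a Hodge class on `X_s` -/
  Hdg : E → ∀ (j : ℕ) (X : Sch k), Set (H (2 * j) j X)

section

variable {k K : Type} [Field k] [Field K]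

/-- Functoriality of the rational Betti homology and of the Hodge classes. -/
structure Conjugates.Functorial (T : Conjugates k K) : Prop where
  /-- the rational Betti homology is a rational structure -/
  rational : ∀ s a b X, IsVar X → IsRational K (T.B s a b X)
  sub : ∀ s j X, T.Hdg s j X ⊆ T.B s (2 * j) j X
  push_B : ∀ s {Z X : Sch k} (i : Z ⟶ X) (h : IsClosedImmersion i.left) (a b : ℤ)
    (z : T.H a b Z), z ∈ T.B s a b Z → T.push i h z ∈ T.B s a b X
  push_Hdg : ∀ s {Z X : Sch k} (i : Z ⟶ X) (h : IsClosedImmersion i.left) (j : ℕ)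
    (z : T.H (2 * j) j Z), z ∈ T.Hdg s j Z → T.push i h z ∈ T.Hdg s j X
  pull_B : ∀ s {U B : Sch k} (q : U ⟶ B) (d : ℕ) (h : LocTriv q.left d) (a b a' b' : ℤ)
    (ha : a' = a + 2 * d) (hb : b' = b + d) (x : T.H a b B), x ∈ T.B s a b B →
    T.pull q d h ha hb x ∈ T.B s a' b' U
  pull_Hdg : ∀ s {U B : Sch k} (q : U ⟶ B) (d : ℕ) (h : LocTriv q.left d) (j j' : ℕ)
    (ha : (2 * j' : ℤ) = 2 * j + 2 * d) (hb : (j' : ℤ) = j + d) (x : T.H (2 * j) j B),
    x ∈ T.Hdg s j B → T.pull q d h ha hb x ∈ T.Hdg s j' U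

/-- Morphisms of mixed Hodge structures are strict; resolution of singularities together with the
semisimplicity of polarised Hodge structures; the trick of Jouanolou. -/
structure Conjugates.Geometric (T : Conjugates k K) : Prop where
  /-- if the push-forward is injective, then a rational class is a Hodge class if its push-forward
  is one -/
  strict_push : ∀ s {Z X : Sch k} (i : Z ⟶ X) (h : IsClosedImmersion i.left), IsVar X →
    ∀ (j : ℕ), (∀ z : T.H (2 * j) j Z, T.push i h z = 0 → z = 0) →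
    ∀ z ∈ T.B s (2 * j) j Z, T.push i h z ∈ T.Hdg s j X → z ∈ T.Hdg s j Z
  strict_pull : ∀ s {U B : Sch k} (q : U ⟶ B) (d : ℕ) (h : LocTriv q.left d), IsVar B →
    ∀ (j j' : ℕ) (ha : (2 * j' : ℤ) = 2 * j + 2 * d) (hb : (j' : ℤ) = j + d),
    ∀ x ∈ T.B s (2 * j) j B, T.pull q d h ha hb x ∈ T.Hdg s j' U → x ∈ T.Hdg s j B
  /-- every variety `X` is covered by a smooth projective variety `Y`: there is a map from the
  homology of `Y` to that of `X` (restriction to an open subset `X'` of `Y`, followed by the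
  push-forward along a proper map `X' ⟶ X`) which maps the Hodge classes onto the Hodge classes,
  for all conjugates at the same time -/
  cover : ∀ X : Sch k, IsVar X → ∀ j : ℕ, ∃ Y : Sch k, SmProj Y ∧
    ∃ φ : T.H (2 * j) j Y → T.H (2 * j) j X, ∀ s, φ '' T.Hdg s j Y = T.Hdg s j X
  jouanolou : ∀ X : Sch k, SmProj X → HasAffineBundle X

/-- Every Hodge class on `X_s` is (transported to) a Hodge class on `X_t`. -/
def Conjugates.Absolute (T : Conjugates k K) (s t : T.E) (X : Sch k) : Prop :=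
  ∀ j : ℕ, T.Hdg s j X ⊆ T.Hdg t j X

theorem Conjugates.absolute_all (T : Conjugates k K) (hG : T.Geometric) (s t : T.E)
    (h : ∀ X : Sch k, SmProj X → T.Absolute s t X) (X : Sch k) (hX : IsVar X) :
    T.Absolute s t X := by
  intro j x hx
  obtain ⟨Y, hY, φ, hφ⟩ := hG.cover X hX j
  rw [← hφ s] at hx
  obtain ⟨y, hy, rfl⟩ := hx
  rw [← hφ t]
  exact ⟨y, h Y hY j hy, rfl⟩

theorem Conjugates.absolute_iff [CharZero K] (T : Conjugates k K) (hH : HProps T.toHMaps)
    (hF : T.Functorial) (hG : T.Geometric) {S : Set k} (hS : Subfield.closure S = ⊤)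
    (h1 : (1 : k) ∈ S) (s t : T.E) :
    (∀ X : Sch k, SmProj X → T.Absolute s t X) ↔
      ∀ (n r : ℕ) (g : Fin (r + 1) → MvPolynomial (Fin n) k), (∀ i, IsGate S (g i)) →
        T.Absolute s t (aff k (Cone g)) := by
  constructor
  · intro h n r g _
    exact T.absolute_all hG s t h _ (aff_var _ (cone_ft g))
  · intro h X hX j x hx
    obtain ⟨D, _, _, q, d, hD, hq⟩ := hG.jouanolou X hX
    obtain ⟨n, r, g, f, i, hf, hi, hg, hinj⟩ := exists_cone hS h1 D hD
    have hXv := hX.isVar
    have hDv : IsVar (aff k D) := aff_var D hD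
    have hPv : IsVar (aff k (MvPolynomial (Fin (r + 1)) D)) := aff_var _ (ft_mv hD (r + 1))
    have hCv : IsVar (aff k (Cone g)) := aff_var _ (cone_ft g)
    have a1 : (2 * ((j + d : ℕ) : ℤ)) = 2 * (j : ℤ) + 2 * (d : ℤ) := by push_cast; ring
    have b1 : ((j + d : ℕ) : ℤ) = (j : ℤ) + (d : ℤ) := by push_cast; ring
    have a2 : (2 * ((j + d + (r + 1) : ℕ) : ℤ)) =
        2 * ((j + d : ℕ) : ℤ) + 2 * ((r + 1 : ℕ) : ℤ) := by push_cast; ring
    have b2 : ((j + d + (r + 1) : ℕ) : ℤ) = ((j + d : ℕ) : ℤ) + ((r + 1 : ℕ) : ℤ) := by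
      push_cast; ring
    -- going up
    have hy := hF.pull_Hdg s q d hq j (j + d) a1 b1 x hx
    have hy' := hF.pull_Hdg s f (r + 1) hf (j + d) (j + d + (r + 1)) a2 b2 _ hy
    have hz := hF.push_Hdg s i hi (j + d + (r + 1)) _ hy'
    have hz' := h n r g hg _ hz
    -- going down
    have c1 := rational_of_inj (hF.rational t _ _ _ hPv) (hF.rational t _ _ _ hCv)
      (T.pH i hi (2 * ((j + d + (r + 1) : ℕ) : ℤ)) ((j + d + (r + 1) : ℕ) : ℤ))
      (fun v hv => hF.push_B t i hi _ _ v hv) (fun z hz => hinj K T.toHMaps hH _ _ z hz) _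
      (hF.sub t _ _ hz')
    have c2 := hG.strict_push t i hi hCv _ (fun z hz => hinj K T.toHMaps hH _ _ z hz) _ c1 hz'
    have c3 := rational_of_inj (hF.rational t _ _ _ hDv) (hF.rational t _ _ _ hPv)
      (T.fH f (r + 1) hf _ _ _ _ a2 b2)
      (fun v hv => hF.pull_B t f (r + 1) hf _ _ _ _ a2 b2 v hv)
      (fun z hz => hH.inj f (r + 1) hf hDv _ _ _ _ a2 b2 z hz) _ (hF.sub t _ _ c2)
    have c4 := hG.strict_pull t f (r + 1) hf hDv _ _ a2 b2 _ c3 c2
    have c5 := rational_of_inj (hF.rational t _ _ _ hXv) (hF.rational t _ _ _ hDv)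
      (T.fH q d hq _ _ _ _ a1 b1)
      (fun v hv => hF.pull_B t q d hq _ _ _ _ a1 b1 v hv)
      (fun z hz => hH.inj q d hq hXv _ _ _ _ a1 b1 z hz) _ (hF.sub t _ _ c4)
    exact hG.strict_pull t q d hq hXv _ _ a1 b1 _ c5 c4

end

end Pool.Agent.TH376.TC
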