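import Pool.Agent.TH376.TC.Theory

/-!
# From the cone to the subscheme
-/

set_option autoImplicit false

open CategoryTheory CategoryTheory.Limits AlgebraicGeometry

namespace Pool.Agent.TH376.TC

open Pool.Agent.TH90.Cub

variable {k : Type} [Field k]

/-- morphisms of affine schemes over `k` -/
noncomputable def affHom {A B : Type} [CommRing A] [CommRing B] [Algebra k A] [Algebra k B]
    (φ : A →+* B) (h : φ.comp (algebraMap k A) = algebraMap k B) : aff k B ⟶ aff k A :=
  Over.homMk (Spec.map (CommRingCat.ofHom φ)) (by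
    change Spec.map _ ≫ Spec.map _ = Spec.map _
    rw [← Spec.map_comp, ← CommRingCat.ofHom_comp, h])

/-- open subschemes -/
noncomputable def opn (X : Sch k) (V : X.left.Opens) : Sch k := Over.mk (V.ι ≫ X.hom)

/-- the inclusion of an open subscheme -/
noncomputable def inc (X : Sch k) (V : X.left.Opens) : opn X V ⟶ X := Over.homMk V.ι rfl

/-- restriction of morphisms to open subschemes -/
noncomputable def res {X Y : Sch k} (f : Y ⟶ X) (V : X.left.Opens) :
    opn Y (f.left ⁻¹ᵁ V) ⟶ opn X V :=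
  Over.homMk (f.left ∣_ V) (by
    change (f.left ∣_ V) ≫ V.ι ≫ X.hom = (f.left ⁻¹ᵁ V).ι ≫ Y.hom
    rw [morphismRestrict_ι_assoc, Over.w])

theorem opn_var (A : Type) [CommRing A] [Algebra k A] (hA : Algebra.FiniteType k A)
    (V : (aff k A).left.Opens) : IsVar (opn (aff k A) V) := by
  have h := ft_str (sep := True) (k := k) A hA
  have h1 := h.lft
  have h2 := h.qc
  have h3 := h.sp trivial
  have : IsNoetherianRing A := Algebra.FiniteType.isNoetherianRing k A
  have : IsNoetherian (aff k A).left := by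
    change IsNoetherian (Spec (CommRingCat.of A))
    infer_instance
  have hq : QuasiCompact V.ι := inferInstance
  exact ⟨by change LocallyOfFiniteType (V.ι ≫ str k A); infer_instance,
    by change QuasiCompact (V.ι ≫ str k A); infer_instance,
    fun _ => by change IsSeparated (V.ι ≫ str k A); infer_instance⟩

theorem aff_var (A : Type) [CommRing A] [Algebra k A] (hA : Algebra.FiniteType k A) :
    IsVar (aff k A) := ft_str A hA

/-- a closed subscheme of an affine scheme and its complement -/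
theorem pair_aff {R R' : Type} [CommRing R] [CommRing R'] [Algebra k R] [Algebra k R']
    (ψ : R →+* R') (hψ : ψ.comp (algebraMap k R) = algebraMap k R')
    (hs : Function.Surjective ψ) {s : ℕ} (h : Fin s → R)
    (hker : RingHom.ker ψ = Ideal.span (Set.range h)) (V : (aff k R).left.Opens)
    (hV : ∀ x, x ∈ V ↔ ∃ i, h i ∉ (show PrimeSpectrum R from x).asIdeal) :
    IsPair (affHom ψ hψ) (inc (aff k R) V) := by
  refine ⟨IsClosedImmersion.spec_of_surjective _ hs, ?_, ?_⟩
  · change IsOpenImmersion V.ι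
    infer_instance
  · change Set.range (Spec.map (CommRingCat.ofHom ψ)) = (Set.range V.ι)ᶜ
    rw [range_quot ψ hs h hker, Scheme.Opens.range_ι]
    refine Set.ext fun x => ?_
    exact ⟨fun h1 h2 => by
      obtain ⟨i, hi⟩ := (hV x).mp h2
      exact hi (h1 i), fun h1 i => by_contra fun hi => h1 ((hV x).mpr ⟨i, hi⟩)⟩

section Step

variable {A D : Type} [CommRing A] [CommRing D] [Algebra k A] [Algebra k D] {r : ℕ}
  (g : Fin (r + 1) → A) (π : A →+* D)

theorem lin_map (hg : ∀ i, π (g i) = 0) : MvPolynomial.map π (lin g) = 0 := by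
  rw [lin, map_sum]
  refine Finset.sum_eq_zero fun i _ => ?_
  rw [map_mul, MvPolynomial.map_C, hg, map_zero, zero_mul]

/-- `A[t]/(g_0 t_0 + ⋯ + g_r t_r) → D[t]` -/
noncomputable def toD (hg : ∀ i, π (g i) = 0) : Cone g →+* MvPolynomial (Fin (r + 1)) D :=
  Ideal.Quotient.lift (Ideal.span {lin g}) (MvPolynomial.map π) (by
    intro x hx
    have h1 : Ideal.span {lin g} ≤ RingHom.ker (MvPolynomial.map π :
        MvPolynomial (Fin (r + 1)) A →+* MvPolynomial (Fin (r + 1)) D) := by
      rw [Ideal.span_le]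
      rintro _ rfl
      exact lin_map g π hg
    exact h1 hx)

theorem ker_map_C (hker : RingHom.ker π = Ideal.span (Set.range g)) :
    RingHom.ker (MvPolynomial.map π :
      MvPolynomial (Fin (r + 1)) A →+* MvPolynomial (Fin (r + 1)) D) =
      Ideal.span (Set.range fun i => (MvPolynomial.C (g i) : MvPolynomial (Fin (r + 1)) A)) := by
  rw [MvPolynomial.ker_map, hker, Ideal.map_span, ← Set.range_comp]
  rfl

theorem ker_toD (hg : ∀ i, π (g i) = 0) (hker : RingHom.ker π = Ideal.span (Set.range g)) :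
    RingHom.ker (toD g π hg) =
      Ideal.span (Set.range fun i => algebraMap A (Cone g) (g i)) := by
  have h2 := ker_map_C g π hker
  have h3 : (Ideal.span (Set.range fun i => algebraMap A (Cone g) (g i))) =
      (Ideal.span (Set.range fun i =>
        (MvPolynomial.C (g i) : MvPolynomial (Fin (r + 1)) A))).map
        (Ideal.Quotient.mk (Ideal.span {lin g})) := by
    rw [Ideal.map_span, ← Set.range_comp]
    rfl
  rw [h3, ← h2]
  ext x
  obtain ⟨y, rfl⟩ := Ideal.Quotient.mk_surjective x
  have e1 : (Ideal.Quotient.mk (Ideal.span {lin g}) y ∈ RingHom.ker (toD g π hg)) ↔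
      y ∈ RingHom.ker (MvPolynomial.map π :
        MvPolynomial (Fin (r + 1)) A →+* MvPolynomial (Fin (r + 1)) D) := Iff.rfl
  rw [e1]
  constructor
  · intro hy
    exact Ideal.mem_map_of_mem _ hy
  · intro hy
    rw [Ideal.mem_map_iff_of_surjective _ Ideal.Quotient.mk_surjective] at hy
    obtain ⟨z, hz, hzy⟩ := hy
    have h4 : MvPolynomial.map π z = MvPolynomial.map π y := by
      have := congrArg (toD g π hg) hzy
      exact this
    rw [RingHom.mem_ker] at hz ⊢
    rw [← h4, hz]

/-- **The main step.** Let `D = A/(g_0, …, g_r)`. If cycles of dimension `p + 1` on the complement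
of `Spec D` in `Spec A` are rationally equivalent to zero, then Question 1 in dimension `p + r + 1`
for the hypersurface `g_0 t_0 + ⋯ + g_r t_r = 0` in `Spec A × 𝔸^(r+1)` implies Question 1 in
dimension `p` for `Spec D`. -/
theorem step {K G : Type} [Field K] [Group G] (T : Theory k K G) (hA : Algebra.FiniteType k A)
    (hπk : π.comp (algebraMap k A) = algebraMap k D) (hs : Function.Surjective π)
    (hker : RingHom.ker π = Ideal.span (Set.range g)) (p : ℕ)
    (hch : Subsingleton (T.CH (p + 1) (aff k A)))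
    (hcone : T.Q1 (p + (r + 1)) (aff k (Cone g))) : T.Q1 p (aff k D) := by
  have hg : ∀ i, π (g i) = 0 := by
    intro i
    have : g i ∈ RingHom.ker π := by
      rw [hker]
      exact Ideal.subset_span ⟨i, rfl⟩
    exact this
  have hD : Algebra.FiniteType k D := by
    let π' : A →ₐ[k] D := { π with commutes' := fun x => congrArg (fun φ : k →+* D => φ x) hπk }
    exact hA.of_surjective π' hs
  have hM : Algebra.FiniteType k (MvPolynomial (Fin (r + 1)) A) := ft_mv hA (r + 1)
  have hC : Algebra.FiniteType k (Cone g) :=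
    hM.of_surjective (Ideal.Quotient.mkₐ k (Ideal.span {lin g})) Ideal.Quotient.mk_surjective
  -- the objects
  let SA := aff k A
  let SM := aff k (MvPolynomial (Fin (r + 1)) A)
  let SC := aff k (Cone g)
  let ST := aff k (MvPolynomial (Fin (r + 1)) D)
  let SD := aff k D
  let fD : ST ⟶ SD := affHom (MvPolynomial.C : D →+* MvPolynomial (Fin (r + 1)) D) rfl
  have hfD : LocTriv fD.left (r + 1) := locTriv_prod D (r + 1)
  let fM : SM ⟶ SA := affHom (MvPolynomial.C : A →+* MvPolynomial (Fin (r + 1)) A) rfl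
  let c : SC ⟶ SM := affHom (Ideal.Quotient.mk (Ideal.span {lin g})) rfl
  have hc : IsClosedImmersion c.left :=
    IsClosedImmersion.spec_of_surjective _ Ideal.Quotient.mk_surjective
  let iM : ST ⟶ SM := affHom (MvPolynomial.map π) (by
    ext1 x
    simp only [RingHom.comp_apply, MvPolynomial.algebraMap_apply, MvPolynomial.map_C]
    exact congrArg MvPolynomial.C (congrArg (fun φ : k →+* D => φ x) hπk))
  let iC : ST ⟶ SC := affHom (toD g π hg) (by
    ext1 x
    change MvPolynomial.map π (algebraMap k (MvPolynomial (Fin (r + 1)) A) x) = _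
    rw [MvPolynomial.algebraMap_apply, MvPolynomial.map_C, MvPolynomial.algebraMap_apply]
    exact congrArg MvPolynomial.C (congrArg (fun φ : k →+* D => φ x) hπk))
  have hic : iC ≫ c = iM := by
    apply Over.OverMorphism.ext
    change Spec.map _ ≫ Spec.map _ = Spec.map _
    rw [← Spec.map_comp, ← CommRingCat.ofHom_comp]
    rfl
  let B : SA.left.Opens := Bop g
  let W' : SM.left.Opens := fM.left ⁻¹ᵁ B
  let U' : SC.left.Opens := c.left ⁻¹ᵁ W'
  have hW' : ∀ x : SM.left, x ∈ W' ↔ ∃ i, (MvPolynomial.C (g i) : MvPolynomial (Fin (r + 1)) A) ∉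
      (show PrimeSpectrum (MvPolynomial (Fin (r + 1)) A) from x).asIdeal := fun x =>
    mem_Bop g (fM.left x)
  have hU' : ∀ x : SC.left, x ∈ U' ↔ ∃ i, algebraMap A (Cone g) (g i) ∉
      (show PrimeSpectrum (Cone g) from x).asIdeal := fun x =>
    mem_Bop g (fM.left (c.left x))
  have hpM : IsPair iM (inc SM W') := pair_aff _ _ (MvPolynomial.map_surjective π hs) _
    (ker_map_C g π hker) W' hW'
  have hsC : Function.Surjective (toD g π hg) := by
    intro y
    obtain ⟨x, rfl⟩ := MvPolynomial.map_surjective π hs y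
    exact ⟨Ideal.Quotient.mk _ x, rfl⟩
  have hpC : IsPair iC (inc SC U') := pair_aff _ _ hsC _ (ker_toD g π hg hker) U' hU'
  let u : opn SC U' ⟶ opn SM W' := res c W'
  let q : opn SM W' ⟶ opn SA B := res fM B
  have hu : IsClosedImmersion u.left := by
    change IsClosedImmersion (c.left ∣_ W')
    infer_instance
  have hq : LocTriv q.left (r + 1) := locTriv_poly g
  have huq : LocTriv (u ≫ q).left r := by
    have h1 := locTriv_cone g (c.left ≫ fM.left) (by
      change Spec.map _ ≫ Spec.map _ = Spec.map _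
      rw [← Spec.map_comp, ← CommRingCat.ofHom_comp]
      rfl)
    rw [morphismRestrict_comp] at h1
    exact h1
  have hz : IsZeroScheme u := by
    refine ⟨Over.homMk (W'.ι ≫ Spec.map (CommRingCat.ofHom
      ((Polynomial.aeval (R := k) (lin g)).toRingHom))) ?_, ?_⟩
    · change (W'.ι ≫ Spec.map _) ≫ Spec.map _ = W'.ι ≫ Spec.map _
      rw [Category.assoc, ← Spec.map_comp, ← CommRingCat.ofHom_comp]
      congr 3
      exact (Polynomial.aeval (R := k) (lin g)).comp_algebraMap
    · have h1 := isPullback_SpecMap_of_isPushout _ _ _ _ (push_zero (k := k) g)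
      have h2 := isPullback_morphismRestrict c.left W'
      exact h2.paste_vert h1
  -- the argument
  rw [T.q1_iff] at hcone ⊢
  intro x hx
  have hVM : IsVar SM := aff_var _ hM
  have hVC : IsVar SC := aff_var _ hC
  have hVD : IsVar SD := aff_var _ hD
  have hVB : IsVar (opn SA B) := opn_var A hA B
  have e1 : (2 * ((p + (r + 1) : ℕ) : ℤ)) = 2 * (p : ℤ) + 2 * ((r + 1 : ℕ) : ℤ) := by
    push_cast; ring
  have e2 : ((p + (r + 1) : ℕ) : ℤ) = (p : ℤ) + ((r + 1 : ℕ) : ℤ) := by push_cast; ring
  set x' := T.fH fD (r + 1) hfD _ _ _ _ e1 e2 x with hx'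
  have hinv : ∀ s, T.gal _ _ SC s (T.pH iC hpC.ci _ _ x') = T.pH iC hpC.ci _ _ x' := by
    intro s
    rw [T.gal_p, hx', T.gal_f, hx s]
  obtain ⟨β, hβ⟩ := hcone _ hinv
  have hCB : Subsingleton (T.CH (p + 1) (opn SA B)) := by
    have hpair : IsPair (affHom π hπk) (inc SA B) := pair_aff _ _ hs _ hker B
      (fun x => mem_Bop g x)
    exact (T.surjC _ _ hpair (aff_var A hA) (p + 1)).subsingleton
  have hCU : Subsingleton (T.CH (p + (r + 1)) (opn SC U')) :=
    (T.bundleC (u ≫ q) r huq hVB (p + 1) (p + (r + 1)) (by ring)).subsingleton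
  obtain ⟨β1, hβ1⟩ := T.exC iC (inc SC U') hpC hVC _ β (Subsingleton.elim _ _)
  have h5 : T.pH iC hpC.ci _ _ (x' - T.cl _ ST β1) = 0 := by
    rw [map_sub, ← T.cl_p _ _ _ _ hVC, hβ1, hβ, sub_self]
  obtain ⟨y, hy⟩ := T.exH' iC (inc SC U') hpC hVC _ _ _ h5
  have h6 := T.bd_p iM (inc SM W') hpM iC (inc SC U') hpC c u hc hu hVM hic (by
    apply Over.OverMorphism.ext
    change U'.ι ≫ c.left = (c.left ∣_ W') ≫ W'.ι
    exact (morphismRestrict_ι c.left W').symm) _ _ y
  obtain ⟨z, hz'⟩ := (T.bundleH (u ≫ q) r huq hVB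
    (2 * ((p + (r + 1) : ℕ) : ℤ) + 1 - 2 * r) (((p + (r + 1) : ℕ) : ℤ) - r)
    (2 * ((p + (r + 1) : ℕ) : ℤ) + 1) ((p + (r + 1) : ℕ) : ℤ) (by ring) (by ring)).2 y
  have h7 : T.pH u hu _ _ y = 0 := by
    rw [← hz']
    exact T.normal u hu q r hq huq hz hVB _ _ _ _ _ _ z
  rw [h7, map_zero, hy] at h6
  have h8 : x' = T.cl _ ST β1 := (sub_eq_zero.mp h6.symm)
  obtain ⟨γ, hγ⟩ := T.bundleC fD (r + 1) hfD hVD p (p + (r + 1)) rfl β1
  refine ⟨γ, (T.bundleH fD (r + 1) hfD hVD _ _ _ _ e1 e2).1 ?_⟩
  rw [← T.cl_f fD (r + 1) hfD p (p + (r + 1)) rfl e1 e2 γ hVD, hγ, ← h8]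

end Step

end Pool.Agent.TH376.TC
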