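import Pool.Agent.TH376.TC.Core

/-!
# From affine schemes to all schemes
-/

set_option autoImplicit false

open CategoryTheory CategoryTheory.Limits AlgebraicGeometry

namespace Pool.Agent.TH376.TC

open Pool.Agent.TH90.Cub

/-- A property of separated schemes of finite type over `k` which passes from a closed subscheme
and its complement to the scheme. -/
structure IsExt (k : Type) [Field k] (P : ∀ X : Scheme.{0}, (X ⟶ Spec (CommRingCat.of k)) → Prop) :
    Prop where
  iso : ∀ {X Y : Scheme.{0}} (e : X ≅ Y) (g : Y ⟶ Spec (CommRingCat.of k)),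
    FT True k g → P X (e.hom ≫ g) → P Y g
  empty : ∀ {X : Scheme.{0}} (f : X ⟶ Spec (CommRingCat.of k)), IsEmpty X → P X f
  total : ∀ {Z X U : Scheme.{0}} (f : X ⟶ Spec (CommRingCat.of k)) (i : Z ⟶ X) (j : U ⟶ X),
    FT True k f → IsClosedImmersion i → IsOpenImmersion j → Set.range i = (Set.range j)ᶜ →
    P Z (i ≫ f) → P U (j ≫ f) → P X f

variable {k : Type} [Field k] {P : ∀ X : Scheme.{0}, (X ⟶ Spec (CommRingCat.of k)) → Prop}

theorem ext_affine (hP : IsExt k P)
    (hA : ∀ (A : Type) [CommRing A] [Algebra k A], Algebra.FiniteType k A →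
      P (Spec (CommRingCat.of A)) (str k A))
    {Y : Scheme.{0}} [IsAffine Y] (f : Y ⟶ Spec (CommRingCat.of k)) (hf : FT True k f) :
    P Y f := by
  have := hf.lft
  let φ : CommRingCat.of k ⟶ Γ(Y, ⊤) := (Scheme.ΓSpecIso (CommRingCat.of k)).inv ≫ f.appTop
  have hφ : Y.isoSpec.hom ≫ Spec.map φ = f := by
    simp only [φ, Spec.map_comp]
    rw [Scheme.isoSpec_hom_naturality_assoc, Scheme.isoSpec_Spec_hom, ← Spec.map_comp,
      Iso.inv_hom_id, Spec.map_id, Category.comp_id]
  have h2 : Spec.map φ = Y.isoSpec.inv ≫ f := by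
    rw [← hφ, Iso.inv_hom_id_assoc]
  let A : Type := Γ(Y, ⊤)
  let _ : CommRing A := inferInstanceAs (CommRing Γ(Y, ⊤))
  let _ : Algebra k A := φ.hom.toAlgebra
  have hft : Algebra.FiniteType k A := by
    have h3 : LocallyOfFiniteType (Spec.map φ) := by
      rw [h2]
      infer_instance
    rw [HasRingHomProperty.Spec_iff (P := @LocallyOfFiniteType)] at h3
    exact h3
  have h1 := hA A hft
  have h4 : str k A = Y.isoSpec.inv ≫ f := h2
  rw [h4] at h1
  exact hP.iso Y.isoSpec.symm f hf h1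

theorem ext_cover (hP : IsExt k P)
    (hA : ∀ (A : Type) [CommRing A] [Algebra k A], Algebra.FiniteType k A →
      P (Spec (CommRingCat.of A)) (str k A)) :
    ∀ (m : ℕ) {X : Scheme.{0}} (f : X ⟶ Spec (CommRingCat.of k)), FT True k f →
      ∀ U : Fin m → X.Opens, (∀ i, IsAffineOpen (U i)) → (∀ x : X, ∃ i, x ∈ U i) → P X f := by
  intro m
  induction m with
  | zero =>
    intro X f hf U hU hx
    exact hP.empty f ⟨fun x => (hx x).elim fun i _ => i.elim0⟩
  | succ m ih =>
    intro X f hf U hU hx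
    let V : X.Opens := U (Fin.last m)
    let I : X.IdealSheafData := Scheme.IdealSheafData.vanishingIdeal
      ⟨(V : Set X)ᶜ, V.isOpen.isClosed_compl⟩
    have hrange : Set.range I.subschemeι = (Set.range V.ι)ᶜ := by
      rw [Scheme.IdealSheafData.range_subschemeι, Scheme.Opens.range_ι,
        Scheme.IdealSheafData.coe_support_vanishingIdeal]
      rfl
    have := hf.lft
    have := hf.qc
    refine hP.total f I.subschemeι V.ι hf inferInstance inferInstance hrange ?_ ?_
    · refine ih (I.subschemeι ≫ f) (hf.comp_closed _ inferInstance)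
        (fun i => I.subschemeι ⁻¹ᵁ (U i.castSucc)) (fun i => (hU _).preimage _) ?_
      intro x
      obtain ⟨i, hi⟩ := hx (I.subschemeι x)
      have hne : i ≠ Fin.last m := by
        rintro rfl
        have h1 : I.subschemeι x ∈ Set.range I.subschemeι := ⟨x, rfl⟩
        rw [hrange, Scheme.Opens.range_ι] at h1
        exact h1 hi
      obtain ⟨j, rfl⟩ := Fin.exists_castSucc_eq.mpr hne
      exact ⟨j, hi⟩
    · have hV : IsAffine (V : Scheme) := hU (Fin.last m)
      refine ext_affine hP hA (V.ι ≫ f) ⟨inferInstance, ?_, fun h => ?_⟩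
      · infer_instance
      · have := hf.sp h
        infer_instance

theorem ext_all (hP : IsExt k P)
    (hA : ∀ (A : Type) [CommRing A] [Algebra k A], Algebra.FiniteType k A →
      P (Spec (CommRingCat.of A)) (str k A)) {X : Scheme.{0}} (f : X ⟶ Spec (CommRingCat.of k))
    (hf : FT True k f) : P X f := by
  have := hf.qc
  have hc : CompactSpace X := QuasiCompact.compactSpace_of_compactSpace f
  choose W hW hxW _ using fun x : X =>
    exists_isAffineOpen_mem_and_subset (U := (⊤ : X.Opens)) (x := x)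
      (TopologicalSpace.Opens.mem_top x)
  obtain ⟨t, ht⟩ := CompactSpace.elim_nhds_subcover (fun x : X => (W x : Set X))
    (fun x => (W x).isOpen.mem_nhds (hxW x))
  refine ext_cover hP hA t.card f hf (fun i => W ((t.equivFin.symm i) : X)) (fun i => hW _) ?_
  intro x
  have hx : x ∈ ⋃ y ∈ t, (W y : Set X) := by
    rw [ht]
    trivial
  simp only [Set.mem_iUnion] at hx
  obtain ⟨y, hy, hxy⟩ := hx
  exact ⟨t.equivFin ⟨y, hy⟩, by simpa using hxy⟩

variable {K G : Type} [Field K] [Group G] (T : Theory k K G)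

/-- Question 1 passes to isomorphic schemes. -/
theorem q1_iso {X Y : Sch k} (e : X ⟶ Y) (he : IsIso e.left) (hY : IsVar Y) (j : ℕ)
    (h : T.Q1 j X) : T.Q1 j Y := by
  let O : Sch k := Over.mk (Scheme.emptyTo (Spec (CommRingCat.of k)))
  let o : O ⟶ Y := Over.homMk (Scheme.emptyTo Y.left) (Scheme.empty_ext _ _)
  have hO : IsEmpty O.left := inferInstanceAs (IsEmpty (∅ : Scheme.{0}))
  have hp : IsPair e o := by
    refine ⟨inferInstance, inferInstanceAs (IsOpenImmersion (Scheme.emptyTo Y.left)), ?_⟩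
    have h1 : Set.range o.left = ∅ := Set.range_eq_empty_iff.mpr hO
    have h2 : Set.range e.left = Set.univ := by
      rw [Set.range_eq_univ]
      exact (Scheme.homeoOfIso (asIso e.left)).surjective
    rw [h1, h2, Set.compl_empty]
  rw [T.q1_iff] at h ⊢
  intro x hx
  have hs := T.empty' O hO
  obtain ⟨z, hz⟩ := T.exH e o hp hY _ _ x (Subsingleton.elim _ _)
  have hinj : ∀ y, T.pH e hp.ci (2 * j) j y = 0 → y = 0 := by
    intro y hy
    obtain ⟨w, hw⟩ := T.exH' e o hp hY _ _ y hy
    rw [← hw, Subsingleton.elim w 0, map_zero]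
  have hzi : ∀ s, T.gal (2 * j) j X s z = z := by
    intro s
    have h3 : T.pH e hp.ci (2 * j) j (T.gal (2 * j) j X s z - z) = 0 := by
      rw [map_sub, ← T.gal_p, hz, hx s, sub_self]
    exact sub_eq_zero.mp (hinj _ h3)
  obtain ⟨γ, hγ⟩ := h z hzi
  exact ⟨T.pC e hp.ci j γ, by rw [T.cl_p _ _ _ _ hY, hγ, hz]⟩

/-- Question 1 passes from a closed subscheme and its complement to the variety
(characteristic zero). -/
theorem q1_total [CharZero k] {Z X U : Sch k} (i : Z ⟶ X) (u : U ⟶ X) (hp : IsPair i u)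
    (hX : IsVar X) (j : ℕ) (hZ : T.Q1 j Z) (hU : T.Q1 j U) : T.Q1 j X := by
  rw [T.q1_iff] at hZ hU ⊢
  intro x hx
  obtain ⟨β', hβ'⟩ := hU (T.rH u hp.oi _ _ x) (fun s => by rw [T.gal_r, hx s])
  obtain ⟨β, hβ⟩ := T.surjC i u hp hX j β'
  obtain ⟨z, hz⟩ := T.exH i u hp hX _ _ (x - T.cl j X β) (by
    rw [map_sub, ← T.cl_r _ _ _ _ hX, hβ, hβ', sub_self])
  obtain ⟨z', hz1, hz2⟩ := T.lift' inferInstance i hp.ci hX j z (by
    intro s
    rw [hz, map_sub, hx s, T.gal_cl])
  obtain ⟨γ, hγ⟩ := hZ z' hz1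
  refine ⟨β + T.pC i hp.ci j γ, ?_⟩
  rw [map_add, T.cl_p _ _ _ _ hX, hγ, hz2, hz]
  abel

theorem q1_ext [CharZero k] : IsExt k (fun X f => ∀ j, T.Q1 j (Over.mk f)) where
  iso := by
    intro X Y e g hg h j
    exact q1_iso T (Over.homMk e.hom rfl : Over.mk (e.hom ≫ g) ⟶ Over.mk g)
      (inferInstanceAs (IsIso e.hom)) hg j (h j)
  empty := by
    intro X f hX j x _
    have := T.empty' (Over.mk f) hX
    exact ⟨0, Subsingleton.elim _ _⟩
  total := by
    intro Z X U f i j hf hi hj hr hZ hU n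
    exact q1_total T (Over.homMk i rfl : Over.mk (i ≫ f) ⟶ Over.mk f)
      (Over.homMk j rfl : Over.mk (j ≫ f) ⟶ Over.mk f) ⟨hi, hj, hr⟩ hf n (hZ n) (hU n)

end Pool.Agent.TH376.TC
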