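import Pool.Agent.TH376.TC.MT

/-!
# Semisimplicity of Frobenius
-/

set_option autoImplicit false

open CategoryTheory CategoryTheory.Limits AlgebraicGeometry

namespace Pool.Agent.TH376.TC

open Pool.Agent.TH90.Cub

section

variable {K M N : Type} [Field K] [AddCommGroup M] [Module K M] [AddCommGroup N] [Module K N]

/-- semisimplicity passes to subspaces -/
theorem semisimple_of_inj (F : Module.End K M) (G : Module.End K N) (i : M →ₗ[K] N)
    (hi : ∀ z, i z = 0 → z = 0) (h : ∀ x, i (F x) = G (i x)) (hG : G.IsSemisimple) :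
    F.IsSemisimple := by
  rw [Module.End.isSemisimple_iff] at hG ⊢
  intro p hp
  obtain ⟨q, hq, hpq⟩ := hG (p.map i) (by
    intro y hy
    obtain ⟨x, hx, rfl⟩ := hy
    exact ⟨F x, hp hx, h x⟩)
  refine ⟨q.comap i, ?_, ?_⟩
  · intro x hx
    change i (F x) ∈ q
    rw [h]
    exact hq hx
  · constructor
    · rw [Submodule.disjoint_def]
      intro x hx hx'
      exact hi x (Submodule.disjoint_def.mp hpq.disjoint (i x) ⟨x, hx, rfl⟩ hx')
    · rw [codisjoint_iff, eq_top_iff]
      intro x _
      have h1 : i x ∈ p.map i ⊔ q := by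
        rw [hpq.sup_eq_top]
        trivial
      obtain ⟨y, hy, z, hz, hyz⟩ := Submodule.mem_sup.mp h1
      obtain ⟨y, hy, rfl⟩ := hy
      refine Submodule.mem_sup.mpr ⟨y, hy, x - y, ?_, by abel⟩
      change i (x - y) ∈ q
      rw [map_sub, ← hyz, add_sub_cancel_left]
      exact hz

/-- semisimplicity passes to quotients -/
theorem semisimple_of_surj (F : Module.End K M) (G : Module.End K N) (i : M →ₗ[K] N)
    (hi : ∀ y, ∃ x, i x = y) (h : ∀ x, i (F x) = G (i x)) (hF : F.IsSemisimple) :
    G.IsSemisimple := by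
  rw [Module.End.isSemisimple_iff] at hF ⊢
  intro p hp
  obtain ⟨q, hq, hpq⟩ := hF (p.comap i) (by
    intro x hx
    change i (F x) ∈ p
    rw [h]
    exact hp hx)
  refine ⟨q.map i, ?_, ?_⟩
  · rintro _ ⟨x, hx, rfl⟩
    change G (i x) ∈ q.map i
    rw [← h]
    exact ⟨F x, hq hx, rfl⟩
  · constructor
    · rw [Submodule.disjoint_def]
      rintro _ hx ⟨x, hx', rfl⟩
      have h1 : x = 0 := Submodule.disjoint_def.mp hpq.disjoint x hx hx'
      rw [h1, map_zero]
    · rw [codisjoint_iff, eq_top_iff]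
      intro y _
      obtain ⟨x, rfl⟩ := hi y
      have h1 : x ∈ p.comap i ⊔ q := by
        rw [hpq.sup_eq_top]
        trivial
      obtain ⟨y, hy, z, hz, hyz⟩ := Submodule.mem_sup.mp h1
      exact Submodule.mem_sup.mpr ⟨i y, hy, i z, ⟨z, hz, rfl⟩, by rw [← map_add, hyz]⟩

end

/-- The `ℓ`-adic homology of the varieties over a finite field `k`, with the action of Frobenius. The
field of coefficients `K` is `ℚ_ℓ`. -/
structure FrobTheory (k K : Type) [Field k] [Field K] extends HMaps k K where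
  /-- Frobenius -/
  frob : ∀ (a b : ℤ) (X : Sch k), Module.End K (H a b X)

section

variable {k K : Type} [Field k] [Field K]

namespace FrobTheory

variable (T : FrobTheory k K)

/-- Frobenius -/
def fr {a b : ℤ} {X : Sch k} (x : T.H a b X) : T.H a b X := T.frob a b X x

/-- Frobenius acts semisimply on the homology of `X`. -/
def Semisimple (X : Sch k) : Prop := ∀ a b : ℤ, (T.frob a b X).IsSemisimple

/-- Each homology group of `X` embeds, with Frobenius, into a homology group of `Y`. -/
def Embeds (X Y : Sch k) : Prop :=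
  ∀ a b : ℤ, ∃ (a' b' : ℤ) (φ : T.H a b X →ₗ[K] T.H a' b' Y),
    (∀ z, φ z = 0 → z = 0) ∧ ∀ x, φ (T.fr x) = T.fr (φ x)

/-- Known facts: push-forward and pull-back commute with Frobenius; the reduction to smooth
projective varieties (by alterations and weights, the homology of any variety is as a Frobenius
module isomorphic to a subquotient of a sum of homology groups of smooth projective varieties); the
trick of Jouanolou. -/
structure Known : Prop where
  push : ∀ {Z X : Sch k} (i : Z ⟶ X) (h : IsClosedImmersion i.left) (a b : ℤ) (z : T.H a b Z),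
    T.push i h (T.fr z) = T.fr (T.push i h z)
  pull : ∀ {U B : Sch k} (q : U ⟶ B) (d : ℕ) (h : LocTriv q.left d) (a b a' b' : ℤ)
    (ha : a' = a + 2 * d) (hb : b' = b + d) (x : T.H a b B),
    T.pull q d h ha hb (T.fr x) = T.fr (T.pull q d h ha hb x)
  /-- if Frobenius acts semisimply on the homology of all smooth projective varieties, then it
  acts semisimply on the homology of all varieties -/
  weights : (∀ X : Sch k, SmProj X → T.Semisimple X) → ∀ X : Sch k, IsVar X → T.Semisimple X
  jouanolou : ∀ X : Sch k, SmProj X → HasAffineBundle X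

variable {T}

/-- The homology of `X` is up to a twist a Frobenius submodule of that of a cubic hypersurface. -/
theorem exists_embedding (hH : HProps T.toHMaps) (hF : T.Known) {S : Set k}
    (hS : Subfield.closure S = ⊤) (h1 : (1 : k) ∈ S) (X : Sch k) (hX : SmProj X) :
    ∃ (n r : ℕ) (g : Fin (r + 1) → MvPolynomial (Fin n) k), (∀ i, IsGate S (g i)) ∧
      T.Embeds X (aff k (Cone g)) := by
  obtain ⟨D, _, _, q, d, hD, hq⟩ := hF.jouanolou X hX
  obtain ⟨n, r, g, f, i, hf, hi, hg, hinj⟩ := exists_cone hS h1 D hD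
  have hXv := hX.isVar
  have hDv : IsVar (aff k D) := aff_var D hD
  refine ⟨n, r, g, hg, fun a b => ?_⟩
  have a1 : a + 2 * (d : ℤ) = a + 2 * d := rfl
  have b1 : b + (d : ℤ) = b + d := rfl
  have a2 : a + 2 * (d : ℤ) + 2 * ((r + 1 : ℕ) : ℤ) = a + 2 * (d : ℤ) + 2 * ((r + 1 : ℕ) : ℤ) := rfl
  have b2 : b + (d : ℤ) + ((r + 1 : ℕ) : ℤ) = b + (d : ℤ) + ((r + 1 : ℕ) : ℤ) := rfl
  refine ⟨_, _, (T.pH i hi _ _).comp ((T.fH f (r + 1) hf _ _ _ _ a2 b2).comp
    (T.fH q d hq a b _ _ a1 b1)), ?_, ?_⟩
  · intro z hz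
    exact hH.inj q d hq hXv _ _ _ _ a1 b1 z (hH.inj f (r + 1) hf hDv _ _ _ _ a2 b2 _
      (hinj K T.toHMaps hH _ _ _ hz))
  · intro x
    have e1 := hF.pull q d hq _ _ _ _ a1 b1 x
    have e2 := hF.pull f (r + 1) hf _ _ _ _ a2 b2 (T.pull q d hq a1 b1 x)
    have e3 := hF.push i hi _ _ (T.pull f (r + 1) hf a2 b2 (T.pull q d hq a1 b1 x))
    change T.push i hi (T.pull f (r + 1) hf a2 b2 (T.pull q d hq a1 b1 (T.fr x))) = _
    rw [e1, e2, e3]
    rfl

theorem semisimple_reduces (hH : HProps T.toHMaps) (hF : T.Known) {S : Set k}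
    (hS : Subfield.closure S = ⊤) (h1 : (1 : k) ∈ S) : Reduces S T.Semisimple := by
  unfold Reduces
  tfae_have 1 → 2 := hF.weights
  tfae_have 2 → 3 := fun h n r g _ => h _ (aff_var _ (cone_ft g))
  tfae_have 3 → 1 := by
    intro h X hX a b
    obtain ⟨n, r, g, hg, hφ⟩ := exists_embedding hH hF hS h1 X hX
    obtain ⟨a', b', φ, hinj, hcomm⟩ := hφ a b
    exact semisimple_of_inj _ _ φ hinj hcomm (h n r g hg a' b')
  tfae_finish

end FrobTheory

end

end Pool.Agent.TH376.TC
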