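import Pool.Agent.TH376.TC.Frob

/-!
# Semisimplicity of Frobenius for complete varieties
-/

set_option autoImplicit false

open CategoryTheory CategoryTheory.Limits AlgebraicGeometry

namespace Pool.Agent.TH376.TC

open Pool.Agent.TH90.Cub

section

variable {K M N P : Type} [Field K] [AddCommGroup M] [Module K M] [AddCommGroup N] [Module K N]
  [AddCommGroup P] [Module K P]

/-- semisimplicity passes to subquotients -/
theorem semisimple_subquot (F : Module.End K M) (G : Module.End K N) (E : Module.End K P)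
    (ρ : M →ₗ[K] N) (φ : P →ₗ[K] N) (L : Submodule K M) (hL : ∀ x ∈ L, F x ∈ L)
    (hρ : ∀ x, ρ (F x) = G (ρ x)) (hφ : ∀ x, φ (E x) = G (φ x)) (hinj : ∀ z, φ z = 0 → z = 0)
    (hr : ∀ z, ∃ x ∈ L, ρ x = φ z) (hF : F.IsSemisimple) : E.IsSemisimple := by
  have h1 : Module.End.IsSemisimple (F.restrict hL) :=
    semisimple_of_inj _ F L.subtype (fun z hz => by
      simpa using hz) (fun x => rfl) hF
  have hG : ∀ y ∈ L.map ρ, G y ∈ L.map ρ := by
    rintro _ ⟨x, hx, rfl⟩
    exact ⟨F x, hL x hx, hρ x⟩
  have hρL : ∀ x ∈ L, ρ x ∈ L.map ρ := fun x hx => ⟨x, hx, rfl⟩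
  have h2 : Module.End.IsSemisimple (G.restrict hG) := by
    refine semisimple_of_surj (F.restrict hL) _ (ρ.restrict hρL) ?_ ?_ h1
    · rintro ⟨_, x, hx, rfl⟩
      exact ⟨⟨x, hx⟩, rfl⟩
    · intro x
      exact Subtype.ext (hρ x)
  refine semisimple_of_inj E (G.restrict hG) (φ.codRestrict (L.map ρ) fun z => ?_) ?_ ?_ h2
  · obtain ⟨x, hx, hxz⟩ := hr z
    exact ⟨x, hx, hxz⟩
  · intro z hz
    exact hinj z (congrArg Subtype.val hz)
  · intro x
    exact Subtype.ext (hφ x)

end

/-- The `ℓ`-adic homology over a finite field with Frobenius, the restriction maps to open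
subschemes, and the part of lowest weight: the homology `H_a(X)` has weights `≥ -a`, and `low` is
its largest subspace which is pure of weight `-a` (up to the Tate twist). -/
structure WeightTheory (k K : Type) [Field k] [Field K] extends FrobTheory k K where
  /-- restriction to open subschemes -/
  rs : ∀ {U X : Sch k} (j : U ⟶ X), IsOpenImmersion j.left → ∀ a b : ℤ, H a b X →ₗ[K] H a b U
  /-- the part of lowest weight -/
  low : ∀ (a b : ℤ) (X : Sch k), Submodule K (H a b X)

section

variable {k K : Type} [Field k] [Field K]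

/-- `X` is a complete variety over `k`: proper over `k`, not necessarily smooth. -/
def Complete (X : Sch k) : Prop := IsProper X.hom

theorem Complete.isVar {X : Sch k} (h : Complete X) : IsVar X := by
  have : IsProper X.hom := h
  exact ⟨inferInstance, inferInstance, fun _ => inferInstance⟩

/-- `Y` is a complete variety which contains `U` as an open subscheme. -/
def IsCompactification (U Y : Sch k) : Prop := Complete Y ∧ ∃ j : U ⟶ Y, IsOpenImmersion j.left

/-- `P` holds for all cubic hypersurfaces `E_g`, each `g_i` being one of `x_a x_b - x_c`,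
`x_a + x_b - x_c`, `x_a - c` with `c` in `S`. -/
def ForCubics (S : Set k) (P : Sch k → Prop) : Prop :=
  ∀ (n r : ℕ) (g : Fin (r + 1) → MvPolynomial (Fin n) k), (∀ i, IsGate S (g i)) →
    P (aff k (Cone g))

namespace WeightTheory

variable (T : WeightTheory k K)

/-- restriction to open subschemes -/
def res {U X : Sch k} (j : U ⟶ X) (h : IsOpenImmersion j.left) {a b : ℤ} (x : T.H a b X) :
    T.H a b U := T.rs j h a b x

/-- Frobenius and push-forward respect the part of lowest weight, and the homology of a smooth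
projective variety is pure. -/
structure LowPush : Prop where
  frob : ∀ (a b : ℤ) (X : Sch k), ∀ x ∈ T.low a b X, T.fr x ∈ T.low a b X
  push : ∀ {Z X : Sch k} (i : Z ⟶ X) (h : IsClosedImmersion i.left) (a b : ℤ),
    ∀ z ∈ T.low a b Z, T.push i h z ∈ T.low a b X
  pure : ∀ (a b : ℤ) (X : Sch k), SmProj X → ∀ x, x ∈ T.low a b X

/-- Pull-back respects the part of lowest weight. -/
def LowPull : Prop :=
  ∀ {U B : Sch k} (q : U ⟶ B) (d : ℕ) (h : LocTriv q.left d) (a b a' b' : ℤ)
    (ha : a' = a + 2 * d) (hb : b' = b + d), ∀ x ∈ T.low a b B,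
    T.pull q d h ha hb x ∈ T.low a' b' U

/-- Restriction to open subschemes commutes with Frobenius and is surjective on the parts of lowest
weight: the cokernel of the restriction is contained in the homology `H_(a-1)` of the complement,
which has weights `≥ -(a-1)`. -/
structure LowRes : Prop where
  res_frob : ∀ {U X : Sch k} (j : U ⟶ X) (h : IsOpenImmersion j.left) (a b : ℤ) (x : T.H a b X),
    T.res j h (T.fr x) = T.fr (T.res j h x)
  res_low : ∀ {U X : Sch k} (j : U ⟶ X) (h : IsOpenImmersion j.left), IsVar X → ∀ a b : ℤ,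
    ∀ y ∈ T.low a b U, ∃ x ∈ T.low a b X, T.res j h x = y

/-- Known facts on weights: the theory of weights of Deligne, and compactifications. -/
structure Weights : Prop where
  lowPush : T.LowPush
  lowPull : T.LowPull
  lowRes : T.LowRes
  /-- every variety is an open subscheme of a complete variety -/
  compact : ∀ X : Sch k, IsVar X → ∃ Y : Sch k, IsCompactification X Y

/-- the four forms of the conjecture: for smooth projective varieties; for complete varieties; for
all complete varieties which contain one of the cubic hypersurfaces `E_g` as an open subscheme; for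
at least one complete variety `Y ⊇ E_g` for each of the cubic hypersurfaces `E_g` -/
def Forms (S : Set k) : List Prop :=
  [∀ X : Sch k, SmProj X → T.Semisimple X,
    ∀ X : Sch k, Complete X → T.Semisimple X,
    ForCubics S fun E => ∀ Y : Sch k, IsCompactification E Y → T.Semisimple Y,
    ForCubics S fun E => ∃ Y : Sch k, IsCompactification E Y ∧ T.Semisimple Y]

variable {T}

theorem forms_tfae (hH : HProps T.toHMaps) (hF : T.Known) (hW : T.Weights) {S : Set k}
    (hS : Subfield.closure S = ⊤) (h1 : (1 : k) ∈ S) : (T.Forms S).TFAE := by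
  unfold Forms
  tfae_have 1 → 2 := fun h X hX => hF.weights h X hX.isVar
  tfae_have 2 → 3 := fun h n r g _ Y hY => h Y hY.1
  tfae_have 3 → 4 := by
    intro h n r g hg
    obtain ⟨Y, hY⟩ := hW.compact _ (aff_var _ (cone_ft g))
    exact ⟨Y, hY, h n r g hg Y hY⟩
  tfae_have 4 → 1 := by
    intro h X hX a b
    obtain ⟨D, _, _, q, d, hD, hq⟩ := hF.jouanolou X hX
    obtain ⟨n, r, g, f, i, hf, hi, hg, hinj⟩ := exists_cone hS h1 D hD
    obtain ⟨Y, ⟨hY, j, hj⟩, hss⟩ := h n r g hg
    have hXv := hX.isVar
    have hDv : IsVar (aff k D) := aff_var D hD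
    have a1 : a + 2 * (d : ℤ) = a + 2 * d := rfl
    have b1 : b + (d : ℤ) = b + d := rfl
    have a2 : a + 2 * (d : ℤ) + 2 * ((r + 1 : ℕ) : ℤ) = a + 2 * (d : ℤ) + 2 * ((r + 1 : ℕ) : ℤ) :=
      rfl
    have b2 : b + (d : ℤ) + ((r + 1 : ℕ) : ℤ) = b + (d : ℤ) + ((r + 1 : ℕ) : ℤ) := rfl
    refine semisimple_subquot (T.frob _ _ Y) (T.frob _ _ (aff k (Cone g))) (T.frob a b X)
      (T.rs j hj _ _) ((T.pH i hi _ _).comp ((T.fH f (r + 1) hf _ _ _ _ a2 b2).comp
        (T.fH q d hq a b _ _ a1 b1))) (T.low _ _ Y) (hW.lowPush.frob _ _ Y) (hW.lowRes.res_frob j hj _ _)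
      ?_ ?_ ?_ (hss _ _)
    · intro x
      have e1 := hF.pull q d hq _ _ _ _ a1 b1 x
      have e2 := hF.pull f (r + 1) hf _ _ _ _ a2 b2 (T.pull q d hq a1 b1 x)
      have e3 := hF.push i hi _ _ (T.pull f (r + 1) hf a2 b2 (T.pull q d hq a1 b1 x))
      change T.push i hi (T.pull f (r + 1) hf a2 b2 (T.pull q d hq a1 b1 (T.fr x))) = _
      rw [e1, e2, e3]
      rfl
    · intro z hz
      exact hH.inj q d hq hXv _ _ _ _ a1 b1 z (hH.inj f (r + 1) hf hDv _ _ _ _ a2 b2 _
        (hinj K T.toHMaps hH _ _ _ hz))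
    · intro z
      exact hW.lowRes.res_low j hj hY.isVar _ _ _ (hW.lowPush.push i hi _ _ _ (hW.lowPull f (r + 1) hf _ _ _ _ a2 b2 _
        (hW.lowPull q d hq _ _ _ _ a1 b1 _ (hW.lowPush.pure a b X hX z))))
  tfae_finish

end WeightTheory

end

end Pool.Agent.TH376.TC
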