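import Pool.Agent.TH376.TC.Cover

/-!
# Presentations by gates
-/

set_option autoImplicit false

open CategoryTheory CategoryTheory.Limits AlgebraicGeometry MvPolynomial

namespace Pool.Agent.TH376.TC

open Pool.Agent.TH90.Cub Pool.Agent.TH590.JH

variable {k : Type} [Field k] {S : Set k}

theorem good_big {D : Type} [CommRing D] [Algebra k D] (h1 : (1 : k) ∈ S) {n₀ : ℕ}
    {v₀ : Fin n₀ → D} (h : Good S v₀) (m : ℕ) : ∃ (n : ℕ) (v : Fin n → D), m ≤ n ∧ Good S v := by
  induction m with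
  | zero => exact ⟨n₀, v₀, Nat.zero_le _, h⟩
  | succ m ih =>
    obtain ⟨n, v, hn, hv⟩ := ih
    have := hv.ext (C 1) _ (IsGate.const (S := S) (Fin.last n) 1 h1) (Or.inl (by simp))
    exact ⟨n + 1, _, by omega, this⟩

/-- Every algebra of finite type over the field `k` is a quotient of a polynomial ring in more than
`p + 1` variables by an ideal generated by a nonempty list of gates. -/
theorem exists_gates (hS : Subfield.closure S = ⊤) (h1 : (1 : k) ∈ S) (D : Type) [CommRing D]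
    [Algebra k D] (hD : Algebra.FiniteType k D) (p : ℕ) :
    ∃ (n r : ℕ) (g : Fin (r + 1) → MvPolynomial (Fin n) k) (π : MvPolynomial (Fin n) k →ₐ[k] D),
      p + 1 < n ∧ (∀ i, IsGate S (g i)) ∧ Function.Surjective π ∧
      RingHom.ker (π : MvPolynomial (Fin n) k →+* D) = Ideal.span (Set.range g) := by
  have hfp : Algebra.FinitePresentation k D := (Algebra.FinitePresentation.of_finiteType).mp hD
  obtain ⟨n₀, v₀, h₀⟩ := exists_good' hS h1 hfp
  obtain ⟨n, v, hn, hv⟩ := good_big h1 h₀ (p + 1)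
  have hw := hv.ext (C 1) _ (IsGate.const (S := S) (Fin.last n) 1 h1) (Or.inl (by simp))
  set w : Fin (n + 1) → D := Fin.snoc (α := fun _ => D) v (aeval (R := k) v (C 1)) with hwdef
  obtain ⟨hs, L, hL, hker⟩ := hw
  have hmem : (X (Fin.last n) - C 1 : MvPolynomial (Fin (n + 1)) k) ∈
      RingHom.ker (aeval (R := k) w) := by
    rw [RingHom.mem_ker, map_sub, aeval_X, aeval_C, hwdef, Fin.snoc_last]
    simp
  have hne : L ≠ [] := by
    rintro rfl
    rw [hker, show {g : MvPolynomial (Fin (n + 1)) k | g ∈ ([] : List _)} = ∅ by ext; simp,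
      Ideal.span_empty, Ideal.mem_bot, sub_eq_zero] at hmem
    have h2 := congrArg (MvPolynomial.eval (fun _ : Fin (n + 1) => (0 : k))) hmem
    simp at h2
  obtain ⟨r, hr⟩ : ∃ r, L.length = r + 1 :=
    ⟨L.length - 1, by have := List.length_pos_iff.mpr hne; omega⟩
  refine ⟨n + 1, r, fun i => L.get (Fin.cast hr.symm i), aeval w, by omega,
    fun i => hL _ (List.get_mem _ _), hs, ?_⟩
  have hrange : Set.range (fun i : Fin (r + 1) => L.get (Fin.cast hr.symm i)) = {g | g ∈ L} := by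
    ext x
    constructor
    · rintro ⟨i, rfl⟩
      exact List.get_mem _ _
    · intro hx
      obtain ⟨i, hi⟩ := List.mem_iff_get.mp hx
      exact ⟨Fin.cast hr i, by simpa using hi⟩
  rw [hrange]
  exact hker

variable {K G : Type} [Field K] [Group G] (T : Theory k K G)

theorem affine_of_cones (hS : Subfield.closure S = ⊤) (h1 : (1 : k) ∈ S)
    (h : ∀ (n r : ℕ) (g : Fin (r + 1) → MvPolynomial (Fin n) k), (∀ i, IsGate S (g i)) →
      ∀ j, T.Q1 j (aff k (Cone g)))
    (D : Type) [CommRing D] [Algebra k D] (hD : Algebra.FiniteType k D) (p : ℕ) :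
    T.Q1 p (aff k D) := by
  obtain ⟨n, r, g, π, hn, hg, hs, hker⟩ := exists_gates hS h1 D hD p
  exact step g (π : MvPolynomial (Fin n) k →+* D) T inferInstance π.comp_algebraMap hs hker p
    (T.chAff n (p + 1) hn) (h n r g hg _)

/-- Question 1 passes from a locally trivial bundle of affine spaces to its base. -/
theorem q1_bundle {Y X : Sch k} (q : Y ⟶ X) (d : ℕ) (hq : LocTriv q.left d) (hX : IsVar X)
    (p : ℕ) (h : T.Q1 (p + d) Y) : T.Q1 p X := by
  rw [T.q1_iff] at h ⊢
  intro x hx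
  have e1 : (2 * ((p + d : ℕ) : ℤ)) = 2 * (p : ℤ) + 2 * (d : ℤ) := by push_cast; ring
  have e2 : ((p + d : ℕ) : ℤ) = (p : ℤ) + (d : ℤ) := by push_cast; ring
  obtain ⟨z, hz⟩ := h (T.fH q d hq _ _ _ _ e1 e2 x) (fun s => by rw [T.gal_f, hx s])
  obtain ⟨γ, hγ⟩ := T.bundleC q d hq hX p (p + d) rfl z
  refine ⟨γ, (T.bundleH q d hq hX _ _ _ _ e1 e2).1 ?_⟩
  rw [← T.cl_f q d hq p (p + d) rfl e1 e2 γ hX, hγ, hz]

end Pool.Agent.TH376.TC
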