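import Pool.Agent.TH376.TC.Push
import Pool.Agent.TH590.JH.Field

/-!
# The geometry of the cone `g_0 t_0 + ⋯ + g_r t_r = 0`
-/

set_option autoImplicit false

open CategoryTheory CategoryTheory.Limits AlgebraicGeometry

namespace Pool.Agent.TH376.TC

open Pool.Agent.TH90.Cub

/-- `q : U ⟶ B` is a Zariski-locally trivial bundle with fibre the affine space `𝔸^d`: every point
of `B` has an affine open neighbourhood `Spec R` over which `U` is `Spec R[t_1, …, t_d]`. -/
def LocTriv {U B : Scheme.{0}} (q : U ⟶ B) (d : ℕ) : Prop :=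
  ∀ x : B, ∃ (R : Type) (_ : CommRing R) (v : Spec (CommRingCat.of R) ⟶ B)
    (w : Spec (CommRingCat.of (MvPolynomial (Fin d) R)) ⟶ U),
    IsOpenImmersion v ∧ x ∈ Set.range v ∧
      IsPullback w (Spec.map (CommRingCat.ofHom (MvPolynomial.C : R →+* MvPolynomial (Fin d) R)))
        q v

theorem locTriv_restrict {X Y : Scheme.{0}} (f : Y ⟶ X) (d : ℕ) (B : X.Opens)
    (h : ∀ x ∈ B, ∃ (R : Type) (_ : CommRing R) (v : Spec (CommRingCat.of R) ⟶ X)
      (w : Spec (CommRingCat.of (MvPolynomial (Fin d) R)) ⟶ Y),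
      IsOpenImmersion v ∧ x ∈ Set.range v ∧ Set.range v ⊆ B ∧
      IsPullback w (Spec.map (CommRingCat.ofHom (MvPolynomial.C : R →+* MvPolynomial (Fin d) R)))
        f v) : LocTriv (f ∣_ B) d := by
  intro x
  obtain ⟨R, _, v, w, hv, hx, hB, hp⟩ := h (B.ι x) (by
    have : B.ι x ∈ Set.range B.ι := ⟨x, rfl⟩
    rwa [Scheme.Opens.range_ι] at this)
  have hr : Set.range v ⊆ Set.range B.ι := by
    rw [Scheme.Opens.range_ι]
    exact hB
  let v' := IsOpenImmersion.lift B.ι v hr
  have hv' : v' ≫ B.ι = v := IsOpenImmersion.lift_fac _ _ _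
  have t := (isPullback_morphismRestrict f B).flip
  rw [← hv'] at hp
  refine ⟨R, _, v', _, ?_, ?_, IsPullback.of_right' hp t⟩
  · have : IsOpenImmersion (v' ≫ B.ι) := by rw [hv']; exact hv
    exact IsOpenImmersion.of_comp v' B.ι
  · obtain ⟨y, hy⟩ := hx
    refine ⟨y, ?_⟩
    have h1 : B.ι (v' y) = B.ι x := by
      rw [← Scheme.Hom.comp_apply, hv', hy]
    exact B.ι.injective h1

section

variable {A : Type} [CommRing A] {r : ℕ} (g : Fin (r + 1) → A)

/-- the complement of the closed set `g_0 = ⋯ = g_r = 0` -/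
def Bop : (Spec (CommRingCat.of A)).Opens :=
  (⨆ i, PrimeSpectrum.basicOpen (g i) : TopologicalSpace.Opens (PrimeSpectrum A))

theorem mem_Bop (x : Spec (CommRingCat.of A)) :
    x ∈ Bop g ↔ ∃ i, g i ∉ (show PrimeSpectrum A from x).asIdeal := by
  change (show PrimeSpectrum A from x) ∈
    (⨆ i, PrimeSpectrum.basicOpen (g i) : TopologicalSpace.Opens (PrimeSpectrum A)) ↔ _
  rw [TopologicalSpace.Opens.mem_iSup]
  rfl

theorem away_range (a : A) :
    Set.range (Spec.map (CommRingCat.ofHom (algebraMap A (Localization.Away a)))) =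
      {x | a ∉ (show PrimeSpectrum A from x).asIdeal} := by
  have h1 := PrimeSpectrum.localization_away_comap_range (Localization.Away a) a
  exact h1

theorem locTriv_poly : LocTriv
    (Spec.map (CommRingCat.ofHom
      (MvPolynomial.C : A →+* MvPolynomial (Fin (r + 1)) A)) ∣_ Bop g) (r + 1) := by
  apply locTriv_restrict
  intro x hx
  obtain ⟨i, hi⟩ := (mem_Bop g x).mp hx
  refine ⟨Localization.Away (g i), inferInstance,
    Spec.map (CommRingCat.ofHom (algebraMap A (Localization.Away (g i)))),
    Spec.map (CommRingCat.ofHom (MvPolynomial.map (algebraMap A (Localization.Away (g i))))),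
    inferInstance, ?_, ?_, ?_⟩
  · rw [away_range]
    exact hi
  · rw [away_range]
    intro y hy
    exact (mem_Bop g y).mpr ⟨i, hy⟩
  · exact isPullback_SpecMap_of_isPushout _ _ _ _
      (push_poly (r + 1) (algebraMap A (Localization.Away (g i))))

theorem locTriv_cone (f : Spec (CommRingCat.of (Cone g)) ⟶ Spec (CommRingCat.of A))
    (hf : f = Spec.map (CommRingCat.ofHom (algebraMap A (Cone g)))) : LocTriv (f ∣_ Bop g) r := by
  subst hf
  apply locTriv_restrict
  intro x hx
  obtain ⟨i, hi⟩ := (mem_Bop g x).mp hx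
  have he : algebraMap A (Localization.Away (g i)) (g i) *
      IsLocalization.Away.invSelf (g i) = 1 := IsLocalization.Away.mul_invSelf (g i)
  refine ⟨Localization.Away (g i), inferInstance,
    Spec.map (CommRingCat.ofHom (algebraMap A (Localization.Away (g i)))),
    Spec.map (CommRingCat.ofHom (coneMap g (algebraMap A (Localization.Away (g i))) i _ he)),
    inferInstance, ?_, ?_, ?_⟩
  · rw [away_range]
    exact hi
  · rw [away_range]
    intro y hy
    exact (mem_Bop g y).mpr ⟨i, hy⟩
  · exact isPullback_SpecMap_of_isPushout _ _ _ _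
      (push_cone g (algebraMap A (Localization.Away (g i))) i _ he)

end

/-- the product with an affine space is a trivial bundle -/
theorem locTriv_prod (D : Type) [CommRing D] (d : ℕ) :
    LocTriv (Spec.map (CommRingCat.ofHom (MvPolynomial.C : D →+* MvPolynomial (Fin d) D))) d := by
  intro x
  refine ⟨D, inferInstance, 𝟙 _, 𝟙 _, inferInstance, ⟨x, rfl⟩, ?_⟩
  exact IsPullback.of_horiz_isIso ⟨by simp⟩

/-- the range of a closed immersion of affine schemes -/
theorem range_quot {R R' : Type} [CommRing R] [CommRing R'] (ψ : R →+* R')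
    (hs : Function.Surjective ψ) {s : ℕ} (h : Fin s → R)
    (hker : RingHom.ker ψ = Ideal.span (Set.range h)) :
    Set.range (Spec.map (CommRingCat.ofHom ψ)) =
      {x | ∀ i, h i ∈ (show PrimeSpectrum R from x).asIdeal} := by
  have h1 := range_comap_of_surjective R' ψ hs
  have h2 : Set.range (Spec.map (CommRingCat.ofHom ψ)) =
      PrimeSpectrum.zeroLocus (RingHom.ker ψ : Set R) := h1
  rw [h2, hker, PrimeSpectrum.zeroLocus_span]
  ext x
  constructor
  · intro hx i
    exact hx ⟨i, rfl⟩
  · rintro hx _ ⟨i, rfl⟩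
    exact hx i

end Pool.Agent.TH376.TC
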