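import Pool.Agent.TH376.TC.Core

/-!
# The geometry of the cone, as one statement
-/

set_option autoImplicit false

open CategoryTheory CategoryTheory.Limits AlgebraicGeometry

namespace Pool.Agent.TH376.TC

open Pool.Agent.TH90.Cub

variable {k : Type} [Field k]

section

variable {A D : Type} [CommRing A] [CommRing D] [Algebra k A] [Algebra k D] {r : ℕ}
  (g : Fin (r + 1) → A) (π : A →+* D)

theorem cone_geometry (hA : Algebra.FiniteType k A)
    (hπk : π.comp (algebraMap k A) = algebraMap k D) (hs : Function.Surjective π)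
    (hker : RingHom.ker π = Ideal.span (Set.range g)) :
    ∃ (B W U : Sch k)
      (fD : aff k (MvPolynomial (Fin (r + 1)) D) ⟶ aff k D)
      (iM : aff k (MvPolynomial (Fin (r + 1)) D) ⟶ aff k (MvPolynomial (Fin (r + 1)) A))
      (iC : aff k (MvPolynomial (Fin (r + 1)) D) ⟶ aff k (Cone g))
      (c : aff k (Cone g) ⟶ aff k (MvPolynomial (Fin (r + 1)) A))
      (jM : W ⟶ aff k (MvPolynomial (Fin (r + 1)) A)) (jC : U ⟶ aff k (Cone g))
      (u : U ⟶ W) (q : W ⟶ B),
      LocTriv fD.left (r + 1) ∧ IsPair iM jM ∧ IsPair iC jC ∧ IsClosedImmersion c.left ∧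
      IsClosedImmersion u.left ∧ iC ≫ c = iM ∧ jC ≫ c = u ≫ jM ∧ LocTriv q.left (r + 1) ∧
      LocTriv (u ≫ q).left r ∧ IsZeroScheme u ∧
      IsVar (aff k (MvPolynomial (Fin (r + 1)) A)) ∧ IsVar (aff k (Cone g)) ∧
      IsVar (aff k D) ∧ IsVar B := by
  have hg : ∀ i, π (g i) = 0 := by
    intro i
    have : g i ∈ RingHom.ker π := by
      rw [hker]
      exact Ideal.subset_span ⟨i, rfl⟩
    exact this
  have hD : Algebra.FiniteType k D := by
    let π' : A →ₐ[k] D := { π with commutes' := fun x => congrArg (fun φ : k →+* D => φ x) hπk }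
    exact hA.of_surjective π' hs
  have hM : Algebra.FiniteType k (MvPolynomial (Fin (r + 1)) A) := ft_mv hA (r + 1)
  have hC : Algebra.FiniteType k (Cone g) :=
    hM.of_surjective (Ideal.Quotient.mkₐ k (Ideal.span {lin g})) Ideal.Quotient.mk_surjective
  -- the objects
  let SA := aff k A
  let SM := aff k (MvPolynomial (Fin (r + 1)) A)
  let SC := aff k (Cone g)
  let ST := aff k (MvPolynomial (Fin (r + 1)) D)
  let SD := aff k D
  let fD : ST ⟶ SD := affHom (MvPolynomial.C : D →+* MvPolynomial (Fin (r + 1)) D) rfl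
  have hfD : LocTriv fD.left (r + 1) := locTriv_prod D (r + 1)
  let fM : SM ⟶ SA := affHom (MvPolynomial.C : A →+* MvPolynomial (Fin (r + 1)) A) rfl
  let c : SC ⟶ SM := affHom (Ideal.Quotient.mk (Ideal.span {lin g})) rfl
  have hc : IsClosedImmersion c.left :=
    IsClosedImmersion.spec_of_surjective _ Ideal.Quotient.mk_surjective
  let iM : ST ⟶ SM := affHom (MvPolynomial.map π) (by
    ext1 x
    simp only [RingHom.comp_apply, MvPolynomial.algebraMap_apply, MvPolynomial.map_C]
    exact congrArg MvPolynomial.C (congrArg (fun φ : k →+* D => φ x) hπk))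
  let iC : ST ⟶ SC := affHom (toD g π hg) (by
    ext1 x
    change MvPolynomial.map π (algebraMap k (MvPolynomial (Fin (r + 1)) A) x) = _
    rw [MvPolynomial.algebraMap_apply, MvPolynomial.map_C, MvPolynomial.algebraMap_apply]
    exact congrArg MvPolynomial.C (congrArg (fun φ : k →+* D => φ x) hπk))
  have hic : iC ≫ c = iM := by
    apply Over.OverMorphism.ext
    change Spec.map _ ≫ Spec.map _ = Spec.map _
    rw [← Spec.map_comp, ← CommRingCat.ofHom_comp]
    rfl
  let B : SA.left.Opens := Bop g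
  let W' : SM.left.Opens := fM.left ⁻¹ᵁ B
  let U' : SC.left.Opens := c.left ⁻¹ᵁ W'
  have hW' : ∀ x : SM.left, x ∈ W' ↔ ∃ i, (MvPolynomial.C (g i) : MvPolynomial (Fin (r + 1)) A) ∉
      (show PrimeSpectrum (MvPolynomial (Fin (r + 1)) A) from x).asIdeal := fun x =>
    mem_Bop g (fM.left x)
  have hU' : ∀ x : SC.left, x ∈ U' ↔ ∃ i, algebraMap A (Cone g) (g i) ∉
      (show PrimeSpectrum (Cone g) from x).asIdeal := fun x =>
    mem_Bop g (fM.left (c.left x))
  have hpM : IsPair iM (inc SM W') := pair_aff _ _ (MvPolynomial.map_surjective π hs) _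
    (ker_map_C g π hker) W' hW'
  have hsC : Function.Surjective (toD g π hg) := by
    intro y
    obtain ⟨x, rfl⟩ := MvPolynomial.map_surjective π hs y
    exact ⟨Ideal.Quotient.mk _ x, rfl⟩
  have hpC : IsPair iC (inc SC U') := pair_aff _ _ hsC _ (ker_toD g π hg hker) U' hU'
  let u : opn SC U' ⟶ opn SM W' := res c W'
  let q : opn SM W' ⟶ opn SA B := res fM B
  have hu : IsClosedImmersion u.left := by
    change IsClosedImmersion (c.left ∣_ W')
    infer_instance
  have hq : LocTriv q.left (r + 1) := locTriv_poly g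
  have huq : LocTriv (u ≫ q).left r := by
    have h1 := locTriv_cone g (c.left ≫ fM.left) (by
      change Spec.map _ ≫ Spec.map _ = Spec.map _
      rw [← Spec.map_comp, ← CommRingCat.ofHom_comp]
      rfl)
    rw [morphismRestrict_comp] at h1
    exact h1
  have hz : IsZeroScheme u := by
    refine ⟨Over.homMk (W'.ι ≫ Spec.map (CommRingCat.ofHom
      ((Polynomial.aeval (R := k) (lin g)).toRingHom))) ?_, ?_⟩
    · change (W'.ι ≫ Spec.map _) ≫ Spec.map _ = W'.ι ≫ Spec.map _
      rw [Category.assoc, ← Spec.map_comp, ← CommRingCat.ofHom_comp]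
      congr 3
      exact (Polynomial.aeval (R := k) (lin g)).comp_algebraMap
    · have h1 := isPullback_SpecMap_of_isPushout _ _ _ _ (push_zero (k := k) g)
      have h2 := isPullback_morphismRestrict c.left W'
      exact h2.paste_vert h1
  exact ⟨opn SA B, opn SM W', opn SC U', fD, iM, iC, c, inc SM W', inc SC U', u, q, hfD, hpM, hpC,
    hc, hu, hic, by
      apply Over.OverMorphism.ext
      change U'.ι ≫ c.left = (c.left ∣_ W') ≫ W'.ι
      exact (morphismRestrict_ι c.left W').symm, hq, huq, hz, aff_var _ hM, aff_var _ hC,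
    aff_var _ hD, opn_var A hA B⟩

end

end Pool.Agent.TH376.TC
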