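import Pool.Agent.TH376.TC.GeoCone
import Pool.Agent.TH376.TC.Gates

/-!
# The homology of a variety is contained in the homology of a cubic hypersurface
-/

set_option autoImplicit false

open CategoryTheory CategoryTheory.Limits AlgebraicGeometry

namespace Pool.Agent.TH376.TC

open Pool.Agent.TH90.Cub

/-- Families of vector spaces over `K` attached to the schemes over `k`: `H a b X` stands for the
Borel–Moore homology in degree `a` with twist `b`. -/
structure HGroups (k K : Type) [Field k] [Field K] where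
  H : ℤ → ℤ → Sch k → Type
  addH : ∀ a b X, AddCommGroup (H a b X)
  modH : ∀ a b X, Module K (H a b X)

attribute [instance] HGroups.addH HGroups.modH

/-- Push-forward for closed immersions, boundary maps, and pull-back to locally trivial bundles with
fibre `𝔸^d`. -/
structure HMaps (k K : Type) [Field k] [Field K] extends HGroups k K where
  pH : ∀ {Z X : Sch k} (i : Z ⟶ X), IsClosedImmersion i.left → ∀ a b : ℤ, H a b Z →ₗ[K] H a b X
  bd : ∀ {Z X U : Sch k} (i : Z ⟶ X) (j : U ⟶ X), IsPair i j →
    ∀ a b : ℤ, H (a + 1) b U →ₗ[K] H a b Z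
  fH : ∀ {U B : Sch k} (q : U ⟶ B) (d : ℕ), LocTriv q.left d → ∀ a b a' b' : ℤ, a' = a + 2 * d →
    b' = b + d → H a b B →ₗ[K] H a' b' U

section

variable {k K : Type} [Field k] [Field K]

namespace HMaps

variable (T : HMaps k K)

/-- push-forward -/
def push {Z X : Sch k} (i : Z ⟶ X) (h : IsClosedImmersion i.left) {a b : ℤ} (x : T.H a b Z) :
    T.H a b X := T.pH i h a b x

/-- boundary map -/
def bdry {Z X U : Sch k} (i : Z ⟶ X) (j : U ⟶ X) (h : IsPair i j) {a b : ℤ}
    (x : T.H (a + 1) b U) : T.H a b Z := T.bd i j h a b x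

/-- pull-back -/
def pull {U B : Sch k} (q : U ⟶ B) (d : ℕ) (h : LocTriv q.left d) {a b a' b' : ℤ}
    (ha : a' = a + 2 * d) (hb : b' = b + d) (x : T.H a b B) : T.H a' b' U :=
  T.fH q d h a b a' b' ha hb x

end HMaps

/-- The formal properties of Borel–Moore homology: localisation, homotopy invariance, and the
vanishing of the push-forward from a divisor with a global equation. -/
structure HProps (T : HMaps k K) : Prop where
  /-- exactness of the localisation sequence at `H_a(Z)` -/
  exact : ∀ {Z X U : Sch k} (i : Z ⟶ X) (j : U ⟶ X) (h : IsPair i j), IsVar X → ∀ (a b : ℤ)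
    (z : T.H a b Z), T.push i h.ci z = 0 → ∃ y, T.bdry i j h y = z
  /-- the boundary maps commute with push-forward, for closed subschemes `Z ⊆ X' ⊆ X` -/
  bd_p : ∀ {Z X X' U U' : Sch k} (i : Z ⟶ X) (j : U ⟶ X) (h : IsPair i j) (i' : Z ⟶ X')
    (j' : U' ⟶ X') (h' : IsPair i' j') (c : X' ⟶ X) (u : U' ⟶ U) (_ : IsClosedImmersion c.left)
    (hu : IsClosedImmersion u.left), IsVar X → i' ≫ c = i → j' ≫ c = u ≫ j → ∀ (a b : ℤ)
    (y : T.H (a + 1) b U'), T.bdry i j h (T.push u hu y) = T.bdry i' j' h' y
  /-- homotopy invariance -/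
  inj : ∀ {U B : Sch k} (q : U ⟶ B) (d : ℕ) (h : LocTriv q.left d), IsVar B →
    ∀ (a b a' b' : ℤ) (ha : a' = a + 2 * d) (hb : b' = b + d) (x : T.H a b B),
    T.pull q d h ha hb x = 0 → x = 0
  surj : ∀ {U B : Sch k} (q : U ⟶ B) (d : ℕ) (h : LocTriv q.left d), IsVar B →
    ∀ (a b a' b' : ℤ) (ha : a' = a + 2 * d) (hb : b' = b + d) (y : T.H a' b' U),
    ∃ x : T.H a b B, T.pull q d h ha hb x = y
  /-- the zero scheme `U` of a function on `W` has trivial normal bundle: if `W` and `U` are
  bundles of affine spaces over `B`, the push-forward to `W` of a class on `U` which comes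
  from `B` is zero -/
  normal : ∀ {U W B : Sch k} (u : U ⟶ W) (hu : IsClosedImmersion u.left) (p : W ⟶ B) (d : ℕ)
    (_ : LocTriv p.left (d + 1)) (hq : LocTriv (u ≫ p).left d), IsZeroScheme u → IsVar B →
    ∀ (a b a' b' : ℤ) (ha : a' = a + 2 * d) (hb : b' = b + d) (x : T.H a b B),
    T.push u hu (T.pull (u ≫ p) d hq ha hb x) = 0

/-- There is an affine variety `Y` over `k` and a Zariski-locally trivial bundle `Y ⟶ X` of affine
spaces. (By Jouanolou's trick this holds for all quasi-projective varieties `X`.) -/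
def HasAffineBundle (X : Sch k) : Prop :=
  ∃ (D : Type) (_ : CommRing D) (_ : Algebra k D) (q : aff k D ⟶ X) (d : ℕ),
    Algebra.FiniteType k D ∧ LocTriv q.left d

attribute [local instance] MvPolynomial.gradedAlgebra

/-- `X` is a closed subscheme of a projective space over `k`. -/
def IsProj (X : Sch k) : Prop :=
  ∃ (n : ℕ) (i : X.left ⟶ Proj (MvPolynomial.homogeneousSubmodule (Fin (n + 1)) k)),
    IsClosedImmersion i ∧
      i ≫ Proj.toSpecZero (MvPolynomial.homogeneousSubmodule (Fin (n + 1)) k) ≫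
        Spec.map (CommRingCat.ofHom
          (algebraMap k (MvPolynomial.homogeneousSubmodule (Fin (n + 1)) k 0))) = X.hom

/-- `X` is smooth and projective over `k`. -/
def SmProj (X : Sch k) : Prop := Smooth X.hom ∧ IsProper X.hom ∧ IsProj X

theorem SmProj.isVar {X : Sch k} (h : SmProj X) : IsVar X := by
  have := h.2.1
  exact ⟨inferInstance, inferInstance, fun _ => inferInstance⟩

theorem cone_ft {n r : ℕ} (g : Fin (r + 1) → MvPolynomial (Fin n) k) :
    Algebra.FiniteType k (Cone g) := by
  have hM : Algebra.FiniteType k (MvPolynomial (Fin (r + 1)) (MvPolynomial (Fin n) k)) :=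
    ft_mv inferInstance (r + 1)
  exact hM.of_surjective (Ideal.Quotient.mkₐ k (Ideal.span {lin g}))
    Ideal.Quotient.mk_surjective

end

/-- **The homology of an affine variety is contained in that of a cubic hypersurface.** For
every `k`-algebra `D` of finite type there are a cubic hypersurface `E_g` and a closed immersion
`i` of `Spec D × 𝔸^(r+1)` into `E_g` such that push-forward along `i` is injective for
every Borel–Moore homology theory. -/
theorem exists_cone {k : Type} [Field k] {S : Set k} (hS : Subfield.closure S = ⊤)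
    (h1 : (1 : k) ∈ S) (D : Type) [CommRing D] [Algebra k D] (hD : Algebra.FiniteType k D) :
    ∃ (n r : ℕ) (g : Fin (r + 1) → MvPolynomial (Fin n) k)
      (f : aff k (MvPolynomial (Fin (r + 1)) D) ⟶ aff k D)
      (i : aff k (MvPolynomial (Fin (r + 1)) D) ⟶ aff k (Cone g))
      (_ : LocTriv f.left (r + 1)) (hi : IsClosedImmersion i.left),
      (∀ i, IsGate S (g i)) ∧
      ∀ (K : Type) [Field K] (T : HMaps k K), HProps T →
        ∀ (a b : ℤ) (z : T.H a b (aff k (MvPolynomial (Fin (r + 1)) D))),
          T.push i hi z = 0 → z = 0 := by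
  obtain ⟨n, r, g, π, -, hg, hs, hker⟩ := exists_gates hS h1 D hD 0
  obtain ⟨B, W, U, fD, iM, iC, c, jM, jC, u, q, hfD, hpM, hpC, hc, hu, hic, hjc, hq, huq, hz,
    hVM, hVC, hVD, hVB⟩ := cone_geometry g (π : MvPolynomial (Fin n) k →+* D) inferInstance
      π.comp_algebraMap hs hker
  refine ⟨n, r, g, fD, iC, hfD, hpC.ci, hg, ?_⟩
  intro K _ T hT a b z h0
  obtain ⟨y, hy⟩ := hT.exact iC jC hpC hVC a b z h0
  have h6 := hT.bd_p iM jM hpM iC jC hpC c u hc hu hVM hic hjc a b y
  obtain ⟨x, hx⟩ := hT.surj (u ≫ q) r huq hVB (a + 1 - 2 * r) (b - r) (a + 1) b (by ring)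
    (by ring) y
  have h7 : T.push u hu y = 0 := by
    rw [← hx]
    exact hT.normal u hu q r hq huq hz hVB _ _ _ _ _ _ x
  have h8 : T.bdry iM jM hpM (0 : T.H (a + 1) b W) = 0 := map_zero (T.bd iM jM hpM a b)
  rw [h7, h8, hy] at h6
  exact h6.symm

end Pool.Agent.TH376.TC
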