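import Pool.Agent.TH376.TC.Rat

/-!
# Spans of rational vectors
-/

set_option autoImplicit false

namespace Pool.Agent.TH376.TC

variable {K : Type} [Field K] [CharZero K] {M N : Type} [AddCommGroup M] [Module K M]
  [AddCommGroup N] [Module K N] {B : Set M} {C : Set N}

/-- every vector is a combination of its rational coordinate vectors -/
theorem eq_sum_proj (hB : IsRational K B) {ι : Type} (e : Module.Basis ι ℚ K)
    (Ψ : ι → M →+ M)
    (hΨ : ∀ (s : ι) (a : K) (v : M), v ∈ B → Ψ s (a • v) = ((e.repr a s : ℚ) : K) • v) (x : M) :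
    ∃ T₀ : Finset ι, ∀ T : Finset ι, T₀ ⊆ T → x = ∑ s ∈ T, e s • Ψ s x := by
  classical
  have hx : x ∈ Submodule.span K B := by
    rw [hB.span]
    trivial
  have h : ∀ a : K, ∃ T₀ : Finset ι, ∀ T : Finset ι, T₀ ⊆ T →
      a • x = ∑ s ∈ T, e s • Ψ s (a • x) := by
    induction hx using Submodule.span_induction with
    | mem v hv =>
      intro a
      refine ⟨(e.repr a).support, fun T hT => ?_⟩
      have h1 : a = ∑ s ∈ T, (e.repr a s) • e s := by
        conv_lhs => rw [← e.linearCombination_repr a, Finsupp.linearCombination_apply,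
          Finsupp.sum]
        refine Finset.sum_subset hT fun s _ hs => ?_
        rw [Finsupp.notMem_support_iff.mp hs, zero_smul]
      have h2 : ∀ s ∈ T, e s • Ψ s (a • v) = ((e.repr a s) • e s) • v := by
        intro s _
        rw [hΨ s a v hv, smul_smul, Rat.smul_def, mul_comm]
      rw [Finset.sum_congr rfl h2, ← Finset.sum_smul, ← h1]
    | zero =>
      intro a
      refine ⟨∅, fun T _ => ?_⟩
      simp
    | add x y _ _ hx hy =>
      intro a
      obtain ⟨T₁, h₁⟩ := hx a
      obtain ⟨T₂, h₂⟩ := hy a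
      refine ⟨T₁ ∪ T₂, fun T hT => ?_⟩
      rw [smul_add]
      simp only [map_add, smul_add, Finset.sum_add_distrib]
      rw [← h₁ T (Finset.union_subset_left hT), ← h₂ T (Finset.union_subset_right hT)]
    | smul c x _ hx =>
      intro a
      rw [smul_smul]
      exact hx _
  have := h 1
  simpa only [one_smul] using this

/-- **Spans of rational vectors are reflected by injective maps.** -/
theorem span_of_inj (hB : IsRational K B) (hC : IsRational K C) (i : M →ₗ[K] N)
    (hi : ∀ v ∈ B, i v ∈ C) (U : Set N) (hUC : U ⊆ C)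
    (h0 : (0 : N) ∈ U) (hadd : ∀ x ∈ U, ∀ y ∈ U, x + y ∈ U)
    (hq : ∀ (q : ℚ), ∀ x ∈ U, (q : K) • x ∈ U) (x : M) (hx : i x ∈ Submodule.span K U) :
    x ∈ Submodule.span K {v | v ∈ B ∧ i v ∈ U} := by
  let e := Module.Basis.ofVectorSpace ℚ K
  have h1 : ∀ s, ∃ Ψ : M →+ M, (∀ x, Ψ x ∈ B) ∧
      (∀ (a : K) (v : M), v ∈ B → Ψ (a • v) = ((e.repr a s : ℚ) : K) • v) := fun s =>
    exists_proj hB (e.coord s).toAddMonoidHom
  choose Ψ hΨB hΨ using h1
  have h2 : ∀ s, i (Ψ s x) ∈ U := by
    intro s
    obtain ⟨Φ, -, hΦ⟩ := exists_proj hC (e.coord s).toAddMonoidHom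
    rw [← proj_comm hB i hi (e.coord s).toAddMonoidHom (Ψ s) (hΨ s) Φ hΦ x]
    have h3 : ∀ w ∈ Submodule.span K U, ∀ a : K, Φ (a • w) ∈ U := by
      intro w hw
      induction hw using Submodule.span_induction with
      | mem v hv =>
        intro a
        rw [hΦ a v (hUC hv)]
        exact hq _ v hv
      | zero =>
        intro a
        rw [smul_zero, map_zero]
        exact h0
      | add x y _ _ hx hy =>
        intro a
        rw [smul_add, map_add]
        exact hadd _ (hx a) _ (hy a)
      | smul c x _ hx =>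
        intro a
        rw [smul_smul]
        exact hx _
    have := h3 _ hx 1
    rwa [one_smul] at this
  obtain ⟨T, hT⟩ := eq_sum_proj hB e Ψ hΨ x
  rw [hT T subset_rfl]
  exact Submodule.sum_mem _ fun s _ => Submodule.smul_mem _ _
    (Submodule.subset_span ⟨hΨB s x, h2 s⟩)

end Pool.Agent.TH376.TC
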