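import Pool.Agent.TH376.TC.Hom
import Pool.Agent.TH376.TC.RatSpan

/-!
# Hodge classes and Tate classes
-/

set_option autoImplicit false

open CategoryTheory CategoryTheory.Limits AlgebraicGeometry

namespace Pool.Agent.TH376.TC

open Pool.Agent.TH90.Cub

section

variable {k K : Type} [Field k] [Field K]

/-- The homology in degree `2j` with twist `j`. -/
abbrev HGroups.C (T : HGroups k K) (j : ℕ) (X : Sch k) : Type := T.H (2 * j) j X

/-- push-forward -/
def HMaps.pushC (T : HMaps k K) {Z X : Sch k} (i : Z ⟶ X) (h : IsClosedImmersion i.left) (j : ℕ)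
    (x : T.C j Z) : T.C j X := T.push i h x

/-- pull-back -/
def HMaps.pullC (T : HMaps k K) {U B : Sch k} (q : U ⟶ B) (d : ℕ) (h : LocTriv q.left d) (j : ℕ)
    (x : T.C j B) : T.C (j + d) U :=
  T.pull q d h (by push_cast; ring) (by push_cast; ring) x

/-- `U` is a vector space over `ℚ` in the vector space `M` over `K`. -/
def IsRatSub (K : Type) {M : Type} [Field K] [AddCommGroup M] [Module K M] (U : Set M) : Prop :=
  0 ∈ U ∧ (∀ x ∈ U, ∀ y ∈ U, x + y ∈ U) ∧ ∀ (q : ℚ), ∀ x ∈ U, (q : K) • x ∈ U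

end

/-- The `ℓ`-adic homology of the varieties over the field `k`, embedded in `ℂ`, with the action of
the Galois group, and the classes which come from Betti homology. The field of coefficients `K`
is `ℚ_ℓ`. -/
structure Realisations (k K : Type) [Field k] [Field K] extends HMaps k K where
  /-- the action of the absolute Galois group of `k` -/
  gal : Field.absoluteGaloisGroup k → ∀ (j : ℕ) (X : Sch k),
    toHGroups.C j X →ₗ[K] toHGroups.C j X
  /-- the elements which come from the rational Betti homology of `X(ℂ)` -/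
  B : ∀ (j : ℕ) (X : Sch k), Set (toHGroups.C j X)
  /-- the elements which come from a Hodge class in the rational Betti homology of `X(ℂ)` -/
  Hdg : ∀ (j : ℕ) (X : Sch k), Set (toHGroups.C j X)

section

variable {k K : Type} [Field k] [Field K]

namespace Realisations

variable (T : Realisations k K)

/-- the action of the absolute Galois group of `k` -/
def act (σ : Field.absoluteGaloisGroup k) {j : ℕ} {X : Sch k} (x : T.C j X) : T.C j X :=
  T.gal σ j X x

/-- Tate classes: the classes fixed by a subgroup of finite index of the Galois group. -/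
def Tate (j : ℕ) (X : Sch k) : Set (T.C j X) :=
  {x | ∃ N : Subgroup (Field.absoluteGaloisGroup k), N.FiniteIndex ∧ ∀ σ ∈ N, T.act σ x = x}

/-- the space spanned by the Hodge classes -/
def HS (j : ℕ) (X : Sch k) : Submodule K (T.C j X) := Submodule.span K (T.Hdg j X)

/-- the space spanned by the Tate classes -/
def TS (j : ℕ) (X : Sch k) : Submodule K (T.C j X) := Submodule.span K (T.Tate j X)

/-- The Hodge classes are contained in the space spanned by the Tate classes. -/
def HodgeTate (X : Sch k) : Prop := ∀ j : ℕ, T.HS j X ≤ T.TS j X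

/-- The Tate classes are contained in the space spanned by the Hodge classes. -/
def TateHodge (X : Sch k) : Prop := ∀ j : ℕ, T.TS j X ≤ T.HS j X

/-- The Hodge classes and the Tate classes span the same space. -/
def MumfordTate (X : Sch k) : Prop := ∀ j : ℕ, T.HS j X = T.TS j X

/-- `φ` is compatible with the Galois action, the rational structures and the Hodge classes, and
strict: if `φ` is injective, then a rational class is a Hodge class if its image is one. -/
structure Mor {i j : ℕ} {X Y : Sch k} (φ : T.C i X → T.C j Y) : Prop where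
  gal : ∀ σ x, φ (T.act σ x) = T.act σ (φ x)
  rat : ∀ x ∈ T.B i X, φ x ∈ T.B j Y
  hdg : ∀ x ∈ T.Hdg i X, φ x ∈ T.Hdg j Y
  strict : (∀ x, φ x = 0 → x = 0) → ∀ x ∈ T.B i X, φ x ∈ T.Hdg j Y → x ∈ T.Hdg i X

/-- `φ` maps the Hodge classes onto the Hodge classes and the Tate classes onto the Tate classes. -/
def Onto {i j : ℕ} {X Y : Sch k} (φ : T.C i X →ₗ[K] T.C j Y) : Prop :=
  φ '' T.Hdg i X = T.Hdg j Y ∧ φ '' T.Tate i X = T.Tate j Y

/-- The known facts on the Galois action and the Hodge classes: the comparison of `ℓ`-adic homology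
with Betti homology, functoriality, the strictness of morphisms of mixed Hodge structures,
resolution of singularities together with the semisimplicity of the category of polarisable
realisations, and the trick of Jouanolou. -/
structure Facts : Prop where
  /-- the rational Betti homology is a rational structure -/
  rational : ∀ j X, IsVar X → IsRational K (T.B j X)
  sub : ∀ j X, T.Hdg j X ⊆ T.B j X
  space : ∀ j X, IsRatSub K (T.Hdg j X)
  push : ∀ {Z X : Sch k} (i : Z ⟶ X) (h : IsClosedImmersion i.left) (j : ℕ), IsVar X →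
    T.Mor (T.pushC i h j)
  pull : ∀ {U B : Sch k} (q : U ⟶ B) (d : ℕ) (h : LocTriv q.left d) (j : ℕ), IsVar B →
    T.Mor (T.pullC q d h j)
  /-- every variety `X` is covered by a smooth projective variety `Y`: there is a linear map from
  the homology of `Y` to that of `X` (restriction to an open subset `X'` of `Y`, followed by the
  push-forward along a proper map `X' ⟶ X`) which maps the Hodge classes onto the Hodge classes and
  the Tate classes onto the Tate classes -/
  cover : ∀ X : Sch k, IsVar X → ∀ j : ℕ, ∃ Y : Sch k, SmProj Y ∧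
    ∃ φ : T.C j Y →ₗ[K] T.C j X, T.Onto φ
  jouanolou : ∀ X : Sch k, SmProj X → HasAffineBundle X

variable {T}

theorem mem_tate {j : ℕ} {X : Sch k} {x : T.C j X}
    (hx : x ∈ T.TS j X) : x ∈ T.Tate j X := by
  unfold TS at hx
  induction hx using Submodule.span_induction with
  | mem v hv => exact hv
  | zero => exact ⟨⊤, inferInstance, fun σ _ => map_zero (T.gal σ _ _)⟩
  | add x y _ _ hx hy =>
    obtain ⟨N, hN, h1⟩ := hx
    obtain ⟨M, hM, h2⟩ := hy
    refine ⟨N ⊓ M, inferInstance, fun σ hσ => ?_⟩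
    have h3 : T.act σ x = x := h1 σ hσ.1
    have h4 : T.act σ y = y := h2 σ hσ.2
    have h5 : T.act σ (x + y) = T.act σ x + T.act σ y := map_add (T.gal σ _ _) x y
    rw [h5, h3, h4]
  | smul c x _ hx =>
    obtain ⟨N, hN, h1⟩ := hx
    refine ⟨N, hN, fun σ hσ => ?_⟩
    have h3 : T.act σ x = x := h1 σ hσ
    have h5 : T.act σ (c • x) = c • T.act σ x := (T.gal σ _ _).map_smul c x
    rw [h5, h3]

theorem Onto.span {i j : ℕ} {X Y : Sch k} {φ : T.C i X →ₗ[K] T.C j Y} (h : T.Onto φ) :
    (T.HS i X).map φ = T.HS j Y ∧ (T.TS i X).map φ = T.TS j Y := by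
  unfold HS TS
  rw [Submodule.map_span, Submodule.map_span, h.1, h.2]
  exact ⟨rfl, rfl⟩

theorem hodgeTate_all (hG : T.Facts) (h : ∀ X : Sch k, SmProj X → T.HodgeTate X) (X : Sch k)
    (hX : IsVar X) : T.HodgeTate X := by
  intro j
  obtain ⟨Y, hY, φ, h1⟩ := hG.cover X hX j
  rw [← h1.span.1, ← h1.span.2]
  exact Submodule.map_mono (h Y hY j)

theorem tateHodge_all (hG : T.Facts) (h : ∀ X : Sch k, SmProj X → T.TateHodge X) (X : Sch k)
    (hX : IsVar X) : T.TateHodge X := by
  intro j
  obtain ⟨Y, hY, φ, h1⟩ := hG.cover X hX j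
  rw [← h1.span.1, ← h1.span.2]
  exact Submodule.map_mono (h Y hY j)

/-- classes are preserved and reflected -/
structure Way {i j : ℕ} {X Y : Sch k} (φ : T.C i X → T.C j Y) : Prop where
  hdg : ∀ x ∈ T.Hdg i X, φ x ∈ T.Hdg j Y
  tate : ∀ x, φ x ∈ T.Tate j Y ↔ x ∈ T.Tate i X
  span : ∀ x, φ x ∈ T.HS j Y → x ∈ T.HS i X

theorem way_of_mor [CharZero K] (hF : T.Facts) {i j : ℕ} {X Y : Sch k} (hX : IsVar X)
    (hY : IsVar Y) (φ : T.C i X →ₗ[K] T.C j Y) (hφ : T.Mor (fun x => φ x))
    (hinj : ∀ x, φ x = 0 → x = 0) : Way (T := T) (fun x => φ x) := by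
  refine ⟨hφ.hdg, fun x => ⟨?_, ?_⟩, ?_⟩
  · rintro ⟨N, hN, h1⟩
    refine ⟨N, hN, fun σ hσ => ?_⟩
    have h2 : T.act σ (φ x) = φ x := h1 σ hσ
    have h3 : φ (T.act σ x) = T.act σ (φ x) := hφ.gal σ x
    refine sub_eq_zero.mp (hinj _ ?_)
    rw [map_sub, h3, h2, sub_self]
  · rintro ⟨N, hN, h1⟩
    refine ⟨N, hN, fun σ hσ => ?_⟩
    have h3 : φ (T.act σ x) = T.act σ (φ x) := hφ.gal σ x
    have h4 : T.act σ (φ x) = φ x := by rw [← h3, h1 σ hσ]
    exact h4
  · intro x hx
    have h1 := span_of_inj (hF.rational _ _ hX) (hF.rational _ _ hY) φ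
      (fun v hv => hφ.rat v hv) (T.Hdg j Y) (hF.sub j Y) (hF.space j Y).1 (hF.space j Y).2.1
      (hF.space j Y).2.2 x hx
    refine Submodule.span_mono ?_ h1
    rintro v ⟨hv, hv'⟩
    exact hφ.strict hinj v hv hv'

/-- the way from a smooth projective variety to a cubic hypersurface -/
theorem exists_way [CharZero K] (hH : HProps T.toHMaps)
    (hF : T.Facts) {S : Set k} (hS : Subfield.closure S = ⊤)
    (h1 : (1 : k) ∈ S) (X : Sch k) (hX : SmProj X) (j : ℕ) :
    ∃ (n r : ℕ) (g : Fin (r + 1) → MvPolynomial (Fin n) k) (j' : ℕ)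
      (Φ : T.C j X → T.C j' (aff k (Cone g))), (∀ i, IsGate S (g i)) ∧
      Way (T := T) Φ := by
  obtain ⟨D, _, _, q, d, hD, hq⟩ := hF.jouanolou X hX
  obtain ⟨n, r, g, f, i, hf, hi, hg, hinj⟩ := exists_cone hS h1 D hD
  have hXv := hX.isVar
  have hDv : IsVar (aff k D) := aff_var D hD
  have hPv : IsVar (aff k (MvPolynomial (Fin (r + 1)) D)) := aff_var _ (ft_mv hD (r + 1))
  have hCv : IsVar (aff k (Cone g)) := aff_var _ (cone_ft g)
  have a1 : (2 * ((j + d : ℕ) : ℤ)) = 2 * (j : ℤ) + 2 * (d : ℤ) := by push_cast; ring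
  have b1 : ((j + d : ℕ) : ℤ) = (j : ℤ) + (d : ℤ) := by push_cast; ring
  have a2 : (2 * ((j + d + (r + 1) : ℕ) : ℤ)) =
      2 * ((j + d : ℕ) : ℤ) + 2 * ((r + 1 : ℕ) : ℤ) := by push_cast; ring
  have b2 : ((j + d + (r + 1) : ℕ) : ℤ) = ((j + d : ℕ) : ℤ) + ((r + 1 : ℕ) : ℤ) := by
    push_cast; ring
  have w1 := way_of_mor hF (i := j) (j := j + d) hXv hDv (T.fH q d hq _ _ _ _ a1 b1)
    (hF.pull q d hq j hXv) (fun z hz => hH.inj q d hq hXv _ _ _ _ a1 b1 z hz)
  have w2 := way_of_mor hF (i := j + d) (j := j + d + (r + 1)) hDv hPv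
    (T.fH f (r + 1) hf _ _ _ _ a2 b2)
    (hF.pull f (r + 1) hf (j + d) hDv) (fun z hz => hH.inj f (r + 1) hf hDv _ _ _ _ a2 b2 z hz)
  have w3 := way_of_mor hF (i := j + d + (r + 1)) (j := j + d + (r + 1)) hPv hCv
    (T.pH i hi _ _) (hF.push i hi (j + d + (r + 1)) hCv)
    (fun z hz => hinj K T.toHMaps hH _ _ z hz)
  exact ⟨n, r, g, j + d + (r + 1),
    fun x => T.pushC i hi _ (T.pullC f (r + 1) hf _ (T.pullC q d hq _ x)), hg,
    fun x hx => w3.hdg _ (w2.hdg _ (w1.hdg x hx)),
    fun x => (w3.tate _).trans ((w2.tate _).trans (w1.tate x)),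
    fun x hx => w1.span _ (w2.span _ (w3.span _ hx))⟩

theorem hodgeTate_of_cone [CharZero K] (hH : HProps T.toHMaps)
    (hF : T.Facts) {S : Set k} (hS : Subfield.closure S = ⊤)
    (h1 : (1 : k) ∈ S)
    (h : ∀ (n r : ℕ) (g : Fin (r + 1) → MvPolynomial (Fin n) k), (∀ i, IsGate S (g i)) →
      T.HodgeTate (aff k (Cone g))) (X : Sch k) (hX : SmProj X) : T.HodgeTate X := by
  intro j
  obtain ⟨n, r, g, j', Φ, hg, w⟩ := exists_way hH hF hS h1 X hX j
  unfold HS
  rw [Submodule.span_le]
  intro x hx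
  exact Submodule.subset_span ((w.tate x).mp (mem_tate
    (h n r g hg j' (Submodule.subset_span (w.hdg x hx)))))

theorem tateHodge_of_cone [CharZero K] (hH : HProps T.toHMaps)
    (hF : T.Facts) {S : Set k} (hS : Subfield.closure S = ⊤)
    (h1 : (1 : k) ∈ S)
    (h : ∀ (n r : ℕ) (g : Fin (r + 1) → MvPolynomial (Fin n) k), (∀ i, IsGate S (g i)) →
      T.TateHodge (aff k (Cone g))) (X : Sch k) (hX : SmProj X) : T.TateHodge X := by
  intro j
  obtain ⟨n, r, g, j', Φ, hg, w⟩ := exists_way hH hF hS h1 X hX j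
  unfold TS
  rw [Submodule.span_le]
  intro x hx
  exact w.span x (h n r g hg j' (Submodule.subset_span ((w.tate x).mpr hx)))

end Realisations

/-- The three statements are equivalent: `P` holds for all smooth projective varieties over `k`,
`P` holds for all varieties over `k`, and `P` holds for all the cubic hypersurfaces `E_g`, each
`g_i` being one of `x_a x_b - x_c`, `x_a + x_b - x_c`, `x_a - c` with `c` in `S`. -/
def Reduces (S : Set k) (P : Sch k → Prop) : Prop :=
  [∀ X : Sch k, SmProj X → P X,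
    ∀ X : Sch k, IsVar X → P X,
    ∀ (n r : ℕ) (g : Fin (r + 1) → MvPolynomial (Fin n) k), (∀ i, IsGate S (g i)) →
      P (aff k (Cone g))].TFAE

end

end Pool.Agent.TH376.TC
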