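import Pool.Agent.TH376.TC.FrobC

/-!
# The Mumford–Tate conjecture and cubic hypersurfaces
-/

set_option autoImplicit false

open CategoryTheory CategoryTheory.Limits AlgebraicGeometry

namespace Pool.Agent.TH376.TC

open Pool.Agent.TH90.Cub

section

variable {K V W : Type} [Field K] [AddCommGroup V] [Module K V] [AddCommGroup W] [Module K W]

/-- `g` and `h` commute with the linear map `φ : V → W`. -/
def Partners (φ : V →ₗ[K] W) (g : V ≃ₗ[K] V) (h : W ≃ₗ[K] W) : Prop := ∀ x, φ (g x) = h (φ x)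

/-- The linear map `φ : V → W` is compatible with the groups `G` and `G'` of automorphisms of `V`
and `W`: every element of one of the groups has a partner in the other group, such that the two
elements commute with `φ`. -/
def Compat (φ : V →ₗ[K] W) (G : Subgroup (V ≃ₗ[K] V)) (G' : Subgroup (W ≃ₗ[K] W)) : Prop :=
  (∀ g ∈ G, ∃ h ∈ G', Partners φ g h) ∧ ∀ h ∈ G', ∃ g ∈ G, Partners φ g h

/-- The automorphisms `g` and `h` agree on the subspace `L`. -/
def AgreeOn (L : Submodule K V) (g h : V ≃ₗ[K] V) : Prop := ∀ x ∈ L, g x = h x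

/-- The groups `G` and `G'` have the same restriction to the subspace `L`. -/
def SameOn (L : Submodule K V) (G G' : Subgroup (V ≃ₗ[K] V)) : Prop :=
  (∀ g ∈ G, ∃ h ∈ G', AgreeOn L g h) ∧ ∀ h ∈ G', ∃ g ∈ G, AgreeOn L g h

theorem SameOn.symm {L : Submodule K V} {G G' : Subgroup (V ≃ₗ[K] V)} (h : SameOn L G G') :
    SameOn L G' G := by
  refine ⟨fun g hg => ?_, fun g hg => ?_⟩
  · obtain ⟨u, hu, h1⟩ := h.2 g hg
    exact ⟨u, hu, fun x hx => (h1 x hx).symm⟩
  · obtain ⟨u, hu, h1⟩ := h.1 g hg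
    exact ⟨u, hu, fun x hx => (h1 x hx).symm⟩

theorem Compat.comp {U : Type} [AddCommGroup U] [Module K U] {φ : V →ₗ[K] W} {ψ : W →ₗ[K] U}
    {G : Subgroup (V ≃ₗ[K] V)} {G' : Subgroup (W ≃ₗ[K] W)} {G'' : Subgroup (U ≃ₗ[K] U)}
    (hφ : Compat φ G G') (hψ : Compat ψ G' G'') : Compat (ψ.comp φ) G G'' := by
  refine ⟨fun g hg => ?_, fun u hu => ?_⟩
  · obtain ⟨h, hh, h1⟩ := hφ.1 g hg
    obtain ⟨u, hu, h2⟩ := hψ.1 h hh
    exact ⟨u, hu, fun x => by rw [LinearMap.comp_apply, h1 x, h2]; rfl⟩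
  · obtain ⟨h, hh, h2⟩ := hψ.2 u hu
    obtain ⟨g, hg, h1⟩ := hφ.2 h hh
    exact ⟨g, hg, fun x => by rw [LinearMap.comp_apply, h1 x, h2]; rfl⟩

theorem sub_one (φ : V →ₗ[K] W) (L : Submodule K V) (M : Submodule K W)
    (G G' : Subgroup (V ≃ₗ[K] V)) (A A' : Subgroup (W ≃ₗ[K] W)) (hφ : ∀ z, φ z = 0 → z = 0)
    (hL : ∀ x ∈ L, φ x ∈ M) (h1 : Compat φ G A) (h2 : Compat φ G' A') (h : SameOn M A A') :
    ∀ g ∈ G, ∃ h ∈ G', ∀ x ∈ L, g x = h x := by
  intro g hg
  obtain ⟨a, ha, e1⟩ := h1.1 g hg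
  obtain ⟨a', ha', e2⟩ := h.1 a ha
  obtain ⟨g', hg', e3⟩ := h2.2 a' ha'
  refine ⟨g', hg', fun x hx => sub_eq_zero.mp (hφ _ ?_)⟩
  rw [map_sub, e1 x, e3 x, e2 _ (hL x hx), sub_self]

/-- the equality of the groups passes to subspaces -/
theorem SameOn.sub (φ : V →ₗ[K] W) (L : Submodule K V) (M : Submodule K W)
    (G G' : Subgroup (V ≃ₗ[K] V)) (A A' : Subgroup (W ≃ₗ[K] W)) (hφ : ∀ z, φ z = 0 → z = 0)
    (hL : ∀ x ∈ L, φ x ∈ M) (h1 : Compat φ G A) (h2 : Compat φ G' A') (h : SameOn M A A') :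
    SameOn L G G' := by
  refine ⟨sub_one φ L M G G' A A' hφ hL h1 h2 h, fun g hg => ?_⟩
  obtain ⟨u, hu, e⟩ := sub_one φ L M G' G A' A hφ hL h2 h1 h.symm g hg
  exact ⟨u, hu, fun x hx => (e x hx).symm⟩

theorem quot_one (φ : V →ₗ[K] W) (L : Submodule K V) (M : Submodule K W)
    (G G' : Subgroup (V ≃ₗ[K] V)) (A A' : Subgroup (W ≃ₗ[K] W))
    (hM : ∀ y ∈ M, ∃ x ∈ L, φ x = y) (h1 : Compat φ G A) (h2 : Compat φ G' A')
    (h : SameOn L G G') : ∀ a ∈ A, ∃ a' ∈ A', ∀ y ∈ M, a y = a' y := by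
  intro a ha
  obtain ⟨g, hg, e1⟩ := h1.2 a ha
  obtain ⟨g', hg', e2⟩ := h.1 g hg
  obtain ⟨a', ha', e3⟩ := h2.1 g' hg'
  refine ⟨a', ha', fun y hy => ?_⟩
  obtain ⟨x, hx, rfl⟩ := hM y hy
  rw [← e1 x, e2 x hx, e3 x]

/-- the equality of the groups passes to quotients -/
theorem SameOn.quot (φ : V →ₗ[K] W) (L : Submodule K V) (M : Submodule K W)
    (G G' : Subgroup (V ≃ₗ[K] V)) (A A' : Subgroup (W ≃ₗ[K] W))
    (hM : ∀ y ∈ M, ∃ x ∈ L, φ x = y) (h1 : Compat φ G A) (h2 : Compat φ G' A')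
    (h : SameOn L G G') : SameOn M A A' := by
  refine ⟨quot_one φ L M G G' A A' hM h1 h2 h, fun g hg => ?_⟩
  obtain ⟨u, hu, e⟩ := quot_one φ L M G' G A' A hM h2 h1 h.symm g hg
  exact ⟨u, hu, fun x hx => (e x hx).symm⟩

theorem sameOn_of_eq {L : Submodule K V} {G G' : Subgroup (V ≃ₗ[K] V)} (h : G = G') :
    SameOn L G G' := by
  subst h
  exact ⟨fun g hg => ⟨g, hg, fun _ _ => rfl⟩, fun g hg => ⟨g, hg, fun _ _ => rfl⟩⟩

theorem eq_of_sameOn {L : Submodule K V} {G G' : Subgroup (V ≃ₗ[K] V)} (hL : ∀ x, x ∈ L)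
    (h : SameOn L G G') : G = G' := by
  ext g
  constructor
  · intro hg
    obtain ⟨u, hu, e⟩ := h.1 g hg
    have : g = u := LinearEquiv.ext fun x => e x (hL x)
    rwa [this]
  · intro hg
    obtain ⟨u, hu, e⟩ := h.2 g hg
    have : u = g := LinearEquiv.ext fun x => e x (hL x)
    rwa [← this]

end

/-- The `ℓ`-adic homology of the varieties over the field `k`, embedded in `ℂ`, with coefficients in
an algebraic closure `K` of `ℚ_ℓ`, with two groups of automorphisms of each homology group. -/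
structure MTGroups (k K : Type) [Field k] [Field K] extends HMaps k K where
  /-- the group of the `K`-points of the Mumford–Tate group of the (mixed) Hodge structure on the
  rational homology of `X(ℂ)` in degree `a` with twist `b` -/
  mt : ∀ (a b : ℤ) (X : Sch k), Subgroup (H a b X ≃ₗ[K] H a b X)
  /-- the group of the `K`-points of the identity component of the Zariski closure of the image of
  the Galois group -/
  mon : ∀ (a b : ℤ) (X : Sch k), Subgroup (H a b X ≃ₗ[K] H a b X)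

/-- The restriction maps to open subschemes, and the part of lowest weight: `H a b X` has weights
`≥ 2b - a`, and `low a b X` is its largest subspace which is pure of weight `2b - a`. -/
structure MTTheory (k K : Type) [Field k] [Field K] extends MTGroups k K where
  /-- restriction to open subschemes -/
  rs : ∀ {U X : Sch k} (j : U ⟶ X), IsOpenImmersion j.left → ∀ a b : ℤ, H a b X →ₗ[K] H a b U
  /-- the part of lowest weight -/
  low : ∀ (a b : ℤ) (X : Sch k), Submodule K (H a b X)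

section

variable {k K : Type} [Field k] [Field K]

namespace MTTheory

variable (T : MTTheory k K)

/-- `φ` is compatible with the Mumford–Tate groups, with the algebraic monodromy groups, and with
the parts of lowest weight. -/
structure IsMor {a b a' b' : ℤ} {X Y : Sch k} (φ : T.H a b X →ₗ[K] T.H a' b' Y) : Prop where
  mt : Compat φ (T.mt a b X) (T.mt a' b' Y)
  mon : Compat φ (T.mon a b X) (T.mon a' b' Y)
  low : ∀ x ∈ T.low a b X, φ x ∈ T.low a' b' Y

/-- `φ` is surjective on the parts of lowest weight. -/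
def OntoLow {a b a' b' : ℤ} {X Y : Sch k} (φ : T.H a b X →ₗ[K] T.H a' b' Y) : Prop :=
  ∀ y ∈ T.low a' b' Y, ∃ x ∈ T.low a b X, φ x = y

/-- The Mumford–Tate conjecture for the parts of lowest weight of the homology of `X`: the
Mumford–Tate group and the identity component of the algebraic monodromy group act on them through
the same group of automorphisms. -/
def LowMT (X : Sch k) : Prop := ∀ a b : ℤ, SameOn (T.low a b X) (T.mt a b X) (T.mon a b X)

/-- Push-forward, pull-back and restriction are morphisms of mixed Hodge structures and of Galois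
representations; so they are compatible with the groups and with the weights. -/
structure Functorial : Prop where
  push : ∀ {Z X : Sch k} (i : Z ⟶ X) (h : IsClosedImmersion i.left) (a b : ℤ),
    T.IsMor (T.pH i h a b)
  pull : ∀ {U B : Sch k} (q : U ⟶ B) (d : ℕ) (h : LocTriv q.left d) (a b a' b' : ℤ)
    (ha : a' = a + 2 * d) (hb : b' = b + d), T.IsMor (T.fH q d h a b a' b' ha hb)
  res : ∀ {U X : Sch k} (j : U ⟶ X) (h : IsOpenImmersion j.left) (a b : ℤ),
    T.IsMor (T.rs j h a b)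

/-- The homology of a smooth projective variety is pure; restriction to open subschemes is
surjective on the parts of lowest weight; and the part of lowest weight of the homology of any
variety `X` is the image of the homology of a smooth projective variety `Y` (there are
`X ← X' ⊆ Y` with `X' ⟶ X` proper and surjective and `X'` open in `Y`). -/
structure Weights : Prop where
  pure : ∀ (a b : ℤ) (X : Sch k), SmProj X → ∀ x, x ∈ T.low a b X
  res : ∀ {U X : Sch k} (j : U ⟶ X) (h : IsOpenImmersion j.left), IsVar X → ∀ a b : ℤ,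
    T.OntoLow (T.rs j h a b)
  cover : ∀ X : Sch k, IsVar X → ∀ a b : ℤ, ∃ Y : Sch k, SmProj Y ∧
    ∃ φ : T.H a b Y →ₗ[K] T.H a b X, T.IsMor φ ∧ T.OntoLow φ

/-- The known facts. -/
structure Known : Prop where
  functorial : T.Functorial
  weights : T.Weights
  /-- for smooth projective varieties, Tate twists do not matter -/
  twist : ∀ X : Sch k, SmProj X → ∀ a : ℤ, T.mt a 0 X = T.mon a 0 X → ∀ b : ℤ,
    T.mt a b X = T.mon a b X
  jouanolou : ∀ X : Sch k, SmProj X → HasAffineBundle X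
  /-- every variety is an open subscheme of a complete variety -/
  compact : ∀ X : Sch k, IsVar X → ∃ Y : Sch k, IsCompactification X Y

/-- the four forms of the conjecture: for smooth projective varieties; for the parts of lowest
weight of the homology of all varieties; the same for the cubic hypersurfaces `E_g`; the
same for at least one complete variety `Y ⊇ E_g` for each of the cubic hypersurfaces `E_g` -/
def Forms (S : Set k) : List Prop :=
  [∀ X : Sch k, SmProj X → ∀ a : ℤ, T.mt a 0 X = T.mon a 0 X,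
    ∀ X : Sch k, IsVar X → T.LowMT X,
    ForCubics S T.LowMT,
    ForCubics S fun E => ∃ Y : Sch k, IsCompactification E Y ∧ T.LowMT Y]

variable {T}

theorem IsMor.comp {a b a' b' a'' b'' : ℤ} {X Y Z : Sch k} {φ : T.H a b X →ₗ[K] T.H a' b' Y}
    {ψ : T.H a' b' Y →ₗ[K] T.H a'' b'' Z} (hφ : T.IsMor φ) (hψ : T.IsMor ψ) :
    T.IsMor (ψ.comp φ) :=
  ⟨Compat.comp hφ.mt hψ.mt, Compat.comp hφ.mon hψ.mon,
    fun x hx => hψ.low _ (hφ.low x hx)⟩

theorem forms_tfae (hH : HProps T.toHMaps) (hT : T.Known) {S : Set k}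
    (hS : Subfield.closure S = ⊤) (h1 : (1 : k) ∈ S) : (T.Forms S).TFAE := by
  have hF := hT.functorial
  have hW := hT.weights
  unfold Forms
  tfae_have 1 → 2 := by
    intro h X hX a b
    obtain ⟨Y, hY, φ, hφ, hs⟩ := hW.cover X hX a b
    exact SameOn.quot φ (T.low a b Y) (T.low a b X) _ _ _ _ hs hφ.mt hφ.mon
      (sameOn_of_eq (hT.twist Y hY a (h Y hY a) b))
  tfae_have 2 → 4 := by
    intro h n r g hg
    obtain ⟨Y, hY⟩ := hT.compact _ (aff_var _ (cone_ft g))
    exact ⟨Y, hY, h Y hY.1.isVar⟩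
  tfae_have 4 → 3 := by
    intro h n r g hg a b
    obtain ⟨Y, ⟨hY, j, hj⟩, hss⟩ := h n r g hg
    exact SameOn.quot (T.rs j hj a b) (T.low a b Y) _ _ _ _ _
      (hW.res j hj hY.isVar a b) (hF.res j hj a b).mt (hF.res j hj a b).mon (hss a b)
  tfae_have 3 → 1 := by
    intro h X hX a
    obtain ⟨D, _, _, q, d, hD, hq⟩ := hT.jouanolou X hX
    obtain ⟨n, r, g, f, i, hf, hi, hg, hinj⟩ := exists_cone hS h1 D hD
    have hXv := hX.isVar
    have hDv : IsVar (aff k D) := aff_var D hD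
    have a1 : a + 2 * (d : ℤ) = a + 2 * d := rfl
    have b1 : 0 + (d : ℤ) = 0 + d := rfl
    have a2 : a + 2 * (d : ℤ) + 2 * ((r + 1 : ℕ) : ℤ) = a + 2 * (d : ℤ) + 2 * ((r + 1 : ℕ) : ℤ) :=
      rfl
    have b2 : 0 + (d : ℤ) + ((r + 1 : ℕ) : ℤ) = 0 + (d : ℤ) + ((r + 1 : ℕ) : ℤ) := rfl
    have hr : T.IsMor ((T.pH i hi _ _).comp ((T.fH f (r + 1) hf _ _ _ _ a2 b2).comp
        (T.fH q d hq a 0 _ _ a1 b1))) :=
      ((hF.pull q d hq _ _ _ _ a1 b1).comp (hF.pull f (r + 1) hf _ _ _ _ a2 b2)).comp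
        (hF.push i hi _ _)
    refine eq_of_sameOn (hW.pure a 0 X hX) (SameOn.sub _ _ (T.low _ _ (aff k (Cone g))) _ _ _ _
      ?_ hr.low hr.mt hr.mon (h n r g hg _ _))
    intro z hz
    exact hH.inj q d hq hXv _ _ _ _ a1 b1 z (hH.inj f (r + 1) hf hDv _ _ _ _ a2 b2 _
      (hinj K T.toHMaps hH _ _ _ hz))
  tfae_finish

end MTTheory

end

end Pool.Agent.TH376.TC
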