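import Pool.Agent.TH376.TC.MTG

/-!
# The Mumford–Tate conjecture over all number fields and cubic hypersurfaces over `ℚ`
-/

set_option autoImplicit false

open CategoryTheory CategoryTheory.Limits AlgebraicGeometry

namespace Pool.Agent.TH376.TC

open Pool.Agent.TH90.Cub

/-- For every number field `k` with an embedding in `ℂ`, the homology of the varieties over `k` with
the Mumford–Tate groups and the algebraic monodromy groups. -/
structure MTFamily (K : Type) [Field K] where
  /-- the theory for the number field `k` with an embedding in `ℂ` -/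
  th : ∀ (k : Type) [Field k] [NumberField k], (k →+* ℂ) → MTTheory k K

namespace MTFamily

variable {K : Type} [Field K] (T : MTFamily K)

/-- the theory over `ℚ` -/
noncomputable def rat : MTTheory ℚ K := T.th ℚ (algebraMap ℚ ℂ)

/-- The Mumford–Tate conjecture: for every number field `k` with an embedding in `ℂ`, every smooth
projective variety `X` over `k` and every `a`, the Mumford–Tate group of `H_a(X)` is equal to the
identity component of the algebraic monodromy group. -/
def Full : Prop :=
  ∀ (k : Type) [Field k] [NumberField k] (σ : k →+* ℂ) (X : Sch k), SmProj X → ∀ a : ℤ,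
    (T.th k σ).mt a 0 X = (T.th k σ).mon a 0 X

/-- The homology of `X` is as a Hodge structure, and as a representation of a subgroup of finite
index of the Galois group, a direct factor of the homology of `Y`. -/
def Factor {k : Type} [Field k] [NumberField k] (σ : k →+* ℂ) (X : Sch k) (Y : Sch ℚ) : Prop :=
  ∀ a b : ℤ, ∃ φ : T.rat.H a b Y →ₗ[K] (T.th k σ).H a b X, (∀ y, ∃ x, φ x = y) ∧
    Compat φ (T.rat.mt a b Y) ((T.th k σ).mt a b X) ∧ Compat φ (T.rat.mon a b Y) ((T.th k σ).mon a b X)

/-- The known facts for each number field; and the restriction of scalars: a smooth projective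
variety `X` over `k` is a smooth projective variety `Y` over `ℚ`, and the homology of `Y` is the
direct sum of the homology groups of the conjugates of `X` for the embeddings of `k` in `ℂ`. -/
structure Known : Prop where
  props : ∀ (k : Type) [Field k] [NumberField k] (σ : k →+* ℂ), HProps (T.th k σ).toHMaps
  known : ∀ (k : Type) [Field k] [NumberField k] (σ : k →+* ℂ), (T.th k σ).Known
  scalars : ∀ (k : Type) [Field k] [NumberField k] (σ : k →+* ℂ) (X : Sch k), SmProj X →
    ∃ Y : Sch ℚ, SmProj Y ∧ T.Factor σ X Y

variable {T}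

theorem full_iff (hT : T.Known) :
    T.Full ↔ ∀ X : Sch ℚ, SmProj X → ∀ a : ℤ, T.rat.mt a 0 X = T.rat.mon a 0 X := by
  constructor
  · intro h X hX a
    exact h ℚ (algebraMap ℚ ℂ) X hX a
  · intro h k _ _ σ X hX a
    obtain ⟨Y, hY, hf⟩ := hT.scalars k σ X hX
    obtain ⟨φ, hs, h1, h2⟩ := hf a 0
    refine eq_of_sameOn (L := ⊤) (fun _ => Submodule.mem_top) (SameOn.quot φ ⊤ ⊤ _ _ _ _
      (fun y _ => (hs y).imp fun x hx => ⟨Submodule.mem_top, hx⟩) h1 h2
      (sameOn_of_eq (h Y hY a)))

theorem closure_one : Subfield.closure ({1} : Set ℚ) = ⊤ := by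
  rw [eq_top_iff]
  intro q _
  have h := SubfieldClass.ratCast_mem (Subfield.closure ({1} : Set ℚ)) q
  simpa using h

theorem full_tfae (hT : T.Known) : (T.Full :: T.rat.Forms {1}).TFAE := by
  have h := MTTheory.forms_tfae (T := T.rat) (hT.props ℚ _) (hT.known ℚ _) closure_one
    (Set.mem_singleton 1)
  have h2 := full_iff hT
  unfold MTTheory.Forms at h ⊢
  rw [List.tfae_cons_cons]
  exact ⟨h2, h⟩

end MTFamily

end Pool.Agent.TH376.TC
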