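import Mathlib

/-!
# Some push-outs of commutative rings
-/

set_option autoImplicit false

open CategoryTheory CategoryTheory.Limits AlgebraicGeometry

namespace Pool.Agent.TH376.TC

/-- push-outs of commutative rings from the universal property -/
theorem push_of {A B C P : Type} [CommRing A] [CommRing B] [CommRing C] [CommRing P]
    (f : A →+* B) (g : A →+* C) (l : B →+* P) (r : C →+* P) (w : l.comp f = r.comp g)
    (h : ∀ (R : Type) [CommRing R] (a : B →+* R) (b : C →+* R), a.comp f = b.comp g →
      ∃ c : P →+* R, c.comp l = a ∧ c.comp r = b)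
    (hu : ∀ (R : Type) [CommRing R] (c c' : P →+* R), c.comp l = c'.comp l →
      c.comp r = c'.comp r → c = c') :
    IsPushout (CommRingCat.ofHom f) (CommRingCat.ofHom g) (CommRingCat.ofHom l)
      (CommRingCat.ofHom r) := by
  have hw : CommRingCat.ofHom f ≫ CommRingCat.ofHom l =
      CommRingCat.ofHom g ≫ CommRingCat.ofHom r := by
    rw [← CommRingCat.ofHom_comp, ← CommRingCat.ofHom_comp, w]
  refine ⟨⟨hw⟩, ⟨PushoutCocone.IsColimit.mk hw
    (fun s => CommRingCat.ofHom (h s.pt s.inl.hom s.inr.hom ?_).choose) ?_ ?_ ?_⟩⟩
  · have := congrArg CommRingCat.Hom.hom s.condition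
    simpa using this
  · intro s
    ext x
    have := (h s.pt s.inl.hom s.inr.hom (by
      have := congrArg CommRingCat.Hom.hom s.condition
      simpa using this)).choose_spec.1
    exact congrArg (fun φ : B →+* s.pt => φ x) this
  · intro s
    ext x
    have := (h s.pt s.inl.hom s.inr.hom (by
      have := congrArg CommRingCat.Hom.hom s.condition
      simpa using this)).choose_spec.2
    exact congrArg (fun φ : C →+* s.pt => φ x) this
  · intro s m hm1 hm2
    have hs := (h s.pt s.inl.hom s.inr.hom (by
      have := congrArg CommRingCat.Hom.hom s.condition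
      simpa using this)).choose_spec
    apply CommRingCat.hom_ext
    refine hu s.pt _ _ ?_ ?_
    · have h1 := congrArg CommRingCat.Hom.hom hm1
      refine Eq.trans ?_ hs.1.symm
      simpa using h1
    · have h1 := congrArg CommRingCat.Hom.hom hm2
      refine Eq.trans ?_ hs.2.symm
      simpa using h1

/-- base change of a polynomial ring -/
theorem push_poly {A R : Type} [CommRing A] [CommRing R] (d : ℕ) (φ : A →+* R) :
    IsPushout (CommRingCat.ofHom (MvPolynomial.C : A →+* MvPolynomial (Fin d) A))
      (CommRingCat.ofHom φ) (CommRingCat.ofHom (MvPolynomial.map φ : MvPolynomial (Fin d) A →+* _))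
      (CommRingCat.ofHom (MvPolynomial.C : R →+* MvPolynomial (Fin d) R)) := by
  refine push_of _ _ _ _ ?_ ?_ ?_
  · ext x
    simp
  · intro R' _ a b hab
    refine ⟨MvPolynomial.eval₂Hom b (fun i => a (MvPolynomial.X i)), ?_, ?_⟩
    · apply MvPolynomial.ringHom_ext
      · intro x
        simp only [RingHom.comp_apply, MvPolynomial.map_C, MvPolynomial.eval₂Hom_C]
        exact (congrArg (fun ψ : A →+* R' => ψ x) hab).symm
      · intro i
        simp
    · ext x
      simp
  · intro R' _ c c' h1 h2
    apply MvPolynomial.ringHom_ext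
    · intro x
      exact congrArg (fun ψ : R →+* R' => ψ x) h2
    · intro i
      have := congrArg (fun ψ : MvPolynomial (Fin d) A →+* R' => ψ (MvPolynomial.X i)) h1
      simpa using this

/-- The linear form `g_0 t_0 + ⋯ + g_r t_r`. -/
noncomputable def lin {A : Type} [CommRing A] {r : ℕ} (g : Fin (r + 1) → A) :
    MvPolynomial (Fin (r + 1)) A :=
  ∑ i, MvPolynomial.C (g i) * MvPolynomial.X i

/-- The coordinate ring `A[t_0, …, t_r]/(g_0 t_0 + ⋯ + g_r t_r)`. -/
abbrev Cone {A : Type} [CommRing A] {r : ℕ} (g : Fin (r + 1) → A) : Type :=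
  MvPolynomial (Fin (r + 1)) A ⧸ Ideal.span {lin g}

section Cone

variable {A R : Type} [CommRing A] [CommRing R] {r : ℕ} (g : Fin (r + 1) → A) (φ : A →+* R)
  (i : Fin (r + 1)) (e : R)

/-- the values of the variables -/
noncomputable def val : Fin (r + 1) → MvPolynomial (Fin r) R :=
  Fin.insertNth i (α := fun _ => MvPolynomial (Fin r) R)
    (-∑ j, MvPolynomial.C (e * φ (g (i.succAbove j))) * MvPolynomial.X j) (fun j => MvPolynomial.X j)

theorem val_same : val g φ i e i =
    -∑ j, MvPolynomial.C (e * φ (g (i.succAbove j))) * MvPolynomial.X j := by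
  simp [val]

theorem val_above (j : Fin r) : val g φ i e (i.succAbove j) = MvPolynomial.X j := by
  simp [val]

theorem lin_val (he : φ (g i) * e = 1) :
    MvPolynomial.eval₂Hom ((MvPolynomial.C : R →+* MvPolynomial (Fin r) R).comp φ)
      (val g φ i e) (lin g) = 0 := by
  rw [lin, map_sum, Fin.sum_univ_succAbove _ i]
  simp only [map_mul, MvPolynomial.eval₂Hom_C, MvPolynomial.eval₂Hom_X', RingHom.comp_apply,
    val_same, val_above]
  have h1 : ∀ j : Fin r, (MvPolynomial.C (φ (g i)) : MvPolynomial (Fin r) R) *
      (MvPolynomial.C (e * φ (g (i.succAbove j))) * MvPolynomial.X j) =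
      MvPolynomial.C (φ (g (i.succAbove j))) * MvPolynomial.X j := by
    intro j
    rw [← mul_assoc, ← MvPolynomial.C_mul, ← mul_assoc, he, one_mul]
  have h2 : (MvPolynomial.C (φ (g i)) : MvPolynomial (Fin r) R) *
      (-∑ j, MvPolynomial.C (e * φ (g (i.succAbove j))) * MvPolynomial.X j) =
      -∑ j, MvPolynomial.C (φ (g (i.succAbove j))) * MvPolynomial.X j := by
    rw [mul_neg, Finset.mul_sum]
    simp only [h1]
  simp only [map_mul] at h2 ⊢
  rw [h2]
  simp

/-- the base change of the cone to a ring in which one coefficient is invertible -/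
noncomputable def coneMap (he : φ (g i) * e = 1) : Cone g →+* MvPolynomial (Fin r) R :=
  Ideal.Quotient.lift (Ideal.span {lin g})
    (MvPolynomial.eval₂Hom ((MvPolynomial.C : R →+* MvPolynomial (Fin r) R).comp φ) (val g φ i e))
    (by
      intro x hx
      have h1 : Ideal.span {lin g} ≤ RingHom.ker
          (MvPolynomial.eval₂Hom ((MvPolynomial.C : R →+* MvPolynomial (Fin r) R).comp φ)
            (val g φ i e)) := by
        rw [Ideal.span_le]
        rintro _ rfl
        exact lin_val g φ i e he
      exact h1 hx)

theorem push_cone (he : φ (g i) * e = 1) :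
    IsPushout (CommRingCat.ofHom (algebraMap A (Cone g))) (CommRingCat.ofHom φ)
      (CommRingCat.ofHom (coneMap g φ i e he))
      (CommRingCat.ofHom (MvPolynomial.C : R →+* MvPolynomial (Fin r) R)) := by
  have hX : ∀ l, coneMap g φ i e he (Ideal.Quotient.mk _ (MvPolynomial.X l)) = val g φ i e l := by
    intro l
    change MvPolynomial.eval₂Hom _ _ (MvPolynomial.X l) = _
    simp
  have hC : ∀ x, coneMap g φ i e he (Ideal.Quotient.mk _ (MvPolynomial.C x)) =
      MvPolynomial.C (φ x) := by
    intro x
    change MvPolynomial.eval₂Hom _ _ (MvPolynomial.C x) = _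
    simp
  refine push_of _ _ _ _ ?_ ?_ ?_
  · ext1 x
    exact hC x
  · intro R' _ a b hab
    have hab' : ∀ x, a (Ideal.Quotient.mk _ (MvPolynomial.C x)) = b (φ x) := fun x =>
      congrArg (fun ψ : A →+* R' => ψ x) hab
    refine ⟨MvPolynomial.eval₂Hom b
      (fun j => a (Ideal.Quotient.mk _ (MvPolynomial.X (i.succAbove j)))), ?_, ?_⟩
    · apply Ideal.Quotient.ringHom_ext
      apply MvPolynomial.ringHom_ext
      · intro x
        simp only [RingHom.comp_apply, hC, MvPolynomial.eval₂Hom_C, hab']
      · intro l
        simp only [RingHom.comp_apply, hX]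
        rcases Fin.eq_self_or_eq_succAbove i l with rfl | ⟨j, rfl⟩
        · rw [val_same, map_neg, map_sum]
          simp only [map_mul, MvPolynomial.eval₂Hom_C, MvPolynomial.eval₂Hom_X']
          have h0 : a (Ideal.Quotient.mk (Ideal.span {lin g})
              (∑ i, MvPolynomial.C (g i) * MvPolynomial.X i)) = 0 := by
            have h := (Ideal.Quotient.eq_zero_iff_mem (I := Ideal.span {lin g})).mpr
              (Ideal.subset_span (Set.mem_singleton (lin g)))
            exact (congrArg a h).trans (map_zero a)
          rw [map_sum, map_sum, Fin.sum_univ_succAbove _ l] at h0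
          simp only [map_mul, hab'] at h0
          have hbe : b (φ (g l)) * b e = 1 := by rw [← map_mul, he, map_one]
          have h3 : ∑ j, b e * b (φ (g (l.succAbove j))) *
              a (Ideal.Quotient.mk (Ideal.span {lin g}) (MvPolynomial.X (l.succAbove j))) =
              b e * ∑ j, b (φ (g (l.succAbove j))) *
              a (Ideal.Quotient.mk (Ideal.span {lin g}) (MvPolynomial.X (l.succAbove j))) := by
            rw [Finset.mul_sum]
            exact Finset.sum_congr rfl fun j _ => mul_assoc _ _ _
          rw [h3]
          linear_combination (-(b e)) * h0 +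
            a (Ideal.Quotient.mk (Ideal.span {lin g}) (MvPolynomial.X l)) * hbe
        · rw [val_above]
          simp
    · ext x
      simp
  · intro R' _ c c' h1 h2
    apply MvPolynomial.ringHom_ext
    · intro x
      exact congrArg (fun ψ : R →+* R' => ψ x) h2
    · intro j
      have := congrArg (fun ψ : Cone g →+* R' =>
        ψ (Ideal.Quotient.mk _ (MvPolynomial.X (i.succAbove j)))) h1
      simp only [RingHom.comp_apply, hX, val_above] at this
      exact this

end Cone

/-- the zero scheme of the linear form -/
theorem push_zero {k A : Type} [CommRing k] [CommRing A] [Algebra k A] {r : ℕ}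
    (g : Fin (r + 1) → A) :
    IsPushout (CommRingCat.ofHom ((Polynomial.aeval (R := k) (lin g)).toRingHom))
      (CommRingCat.ofHom ((Polynomial.aeval (R := k) (0 : k)).toRingHom))
      (CommRingCat.ofHom (Ideal.Quotient.mk (Ideal.span {lin g})))
      (CommRingCat.ofHom (algebraMap k (Cone g))) := by
  refine push_of _ _ _ _ ?_ ?_ ?_
  · apply Polynomial.ringHom_ext
    · intro x
      simp
      rfl
    · simp only [RingHom.comp_apply, AlgHom.toRingHom_eq_coe, RingHom.coe_coe, Polynomial.aeval_X,
        map_zero]
      exact Ideal.Quotient.eq_zero_iff_mem.mpr (Ideal.subset_span rfl)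
  · intro R' _ a b hab
    have h0 : a (lin g) = 0 := by
      have := congrArg (fun ψ : Polynomial k →+* R' => ψ Polynomial.X) hab
      simpa using this
    have hC : ∀ x, a (algebraMap k _ x) = b x := by
      intro x
      have := congrArg (fun ψ : Polynomial k →+* R' => ψ (Polynomial.C x)) hab
      simpa using this
    refine ⟨Ideal.Quotient.lift (Ideal.span {lin g}) a ?_, ?_, ?_⟩
    · intro x hx
      have h1 : Ideal.span {lin g} ≤ RingHom.ker a := by
        rw [Ideal.span_le]
        rintro _ rfl
        exact h0
      exact h1 hx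
    · exact RingHom.ext fun x => rfl
    · exact RingHom.ext fun x => hC x
  · intro R' _ c c' h1 _
    exact Ideal.Quotient.ringHom_ext h1

end Pool.Agent.TH376.TC
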