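import Pool.Agent.TH376.TC.Geo

/-!
# Étale Borel–Moore homology and Chow groups of varieties over a field: the formal properties
-/

set_option autoImplicit false

open CategoryTheory CategoryTheory.Limits AlgebraicGeometry

namespace Pool.Agent.TH376.TC

open Pool.Agent.TH90.Cub

/-- The schemes over the field `k`. -/
abbrev Sch (k : Type) [Field k] : Type 1 := Over (Spec (CommRingCat.of k))

/-- `X` is a variety over `k`: separated and of finite type. -/
def IsVar {k : Type} [Field k] (X : Sch k) : Prop := FT True k X.hom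

/-- `i : Z ⟶ X` is a closed immersion, `j : U ⟶ X` is an open immersion, and their images are
complementary. -/
structure IsPair {k : Type} [Field k] {Z X U : Sch k} (i : Z ⟶ X) (j : U ⟶ X) : Prop where
  ci : IsClosedImmersion i.left
  oi : IsOpenImmersion j.left
  compl : Set.range i.left = (Set.range j.left)ᶜ

/-- The affine scheme over `k` attached to a `k`-algebra. -/
noncomputable abbrev aff (k A : Type) [Field k] [CommRing A] [Algebra k A] : Sch k :=
  Over.mk (str k A)

/-- `u : U ⟶ W` is the inclusion of the zero scheme of a function `F` on `W` (a morphism from `W`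
to the affine line over `k`). -/
def IsZeroScheme {k : Type} [Field k] {U W : Sch k} (u : U ⟶ W) : Prop :=
  ∃ F : W ⟶ aff k (Polynomial k), IsPullback u.left U.hom F.left
    (Spec.map (CommRingCat.ofHom ((Polynomial.aeval (R := k) (0 : k)).toRingHom)))

/-- Families of vector spaces over `K` attached to the schemes `X` over `k`: `H a b X` stands for
the étale Borel–Moore homology in degree `a` with twist `b` of `X` over a separable closure of `k`,
and `CH j X` for the group of cycles of dimension `j` modulo rational equivalence, tensored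
with `K`. -/
structure Groups (k K : Type) [Field k] [Field K] where
  H : ℤ → ℤ → Sch k → Type
  addH : ∀ a b X, AddCommGroup (H a b X)
  modH : ∀ a b X, Module K (H a b X)
  CH : ℕ → Sch k → Type
  addC : ∀ j X, AddCommGroup (CH j X)
  modC : ∀ j X, Module K (CH j X)

attribute [instance] Groups.addH Groups.modH Groups.addC Groups.modC

/-- Push-forward for closed immersions and restriction to open subschemes. -/
structure PushRes (k K : Type) [Field k] [Field K] extends Groups k K where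
  pH : ∀ {Z X : Sch k} (i : Z ⟶ X), IsClosedImmersion i.left → ∀ a b : ℤ, H a b Z →ₗ[K] H a b X
  pC : ∀ {Z X : Sch k} (i : Z ⟶ X), IsClosedImmersion i.left → ∀ n : ℕ, CH n Z →ₗ[K] CH n X
  rH : ∀ {U X : Sch k} (j : U ⟶ X), IsOpenImmersion j.left → ∀ a b : ℤ, H a b X →ₗ[K] H a b U
  rC : ∀ {U X : Sch k} (j : U ⟶ X), IsOpenImmersion j.left → ∀ n : ℕ, CH n X →ₗ[K] CH n U

/-- The maps between the groups `H a b X` and `CH j X`: the action of the Galois group `G`, the
cycle class maps, and the functoriality. -/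
structure Maps (k K G : Type) [Field k] [Field K] [Group G] extends PushRes k K where
  /-- the action of the Galois group -/
  gal : ∀ (a b : ℤ) (X : Sch k), Representation K G (H a b X)
  /-- the cycle class map `c_j` -/
  cl : ∀ (j : ℕ) (X : Sch k), CH j X →ₗ[K] H (2 * j) j X
  /-- the boundary maps of the localisation sequences -/
  bd : ∀ {Z X U : Sch k} (i : Z ⟶ X) (j : U ⟶ X), IsPair i j →
    ∀ a b : ℤ, H (a + 1) b U →ₗ[K] H a b Z
  /-- pull-back to locally trivial bundles with fibre `𝔸^d` -/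
  fH : ∀ {U B : Sch k} (q : U ⟶ B) (d : ℕ), LocTriv q.left d → ∀ a b a' b' : ℤ, a' = a + 2 * d →
    b' = b + d → H a b B →ₗ[K] H a' b' U
  fC : ∀ {U B : Sch k} (q : U ⟶ B) (d : ℕ), LocTriv q.left d → ∀ n n' : ℕ, n' = n + d →
    CH n B →ₗ[K] CH n' U

section

variable {k K G : Type} [Field k] [Field K] [Group G]

namespace Maps

variable (T : Maps k K G)

/-- the action of `s` in the Galois group on `x` -/
def act {a b : ℤ} {X : Sch k} (s : G) (x : T.H a b X) : T.H a b X := T.gal a b X s x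

/-- the class of the cycle `x` -/
def cyc {j : ℕ} {X : Sch k} (x : T.CH j X) : T.H (2 * j) j X := T.cl j X x

/-- push-forward -/
def push {Z X : Sch k} (i : Z ⟶ X) (h : IsClosedImmersion i.left) {a b : ℤ} (x : T.H a b Z) :
    T.H a b X := T.pH i h a b x

/-- push-forward of cycles -/
def pushC {Z X : Sch k} (i : Z ⟶ X) (h : IsClosedImmersion i.left) {n : ℕ} (x : T.CH n Z) :
    T.CH n X := T.pC i h n x

/-- restriction -/
def rest {U X : Sch k} (j : U ⟶ X) (h : IsOpenImmersion j.left) {a b : ℤ} (x : T.H a b X) :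
    T.H a b U := T.rH j h a b x

/-- restriction of cycles -/
def restC {U X : Sch k} (j : U ⟶ X) (h : IsOpenImmersion j.left) {n : ℕ} (x : T.CH n X) :
    T.CH n U := T.rC j h n x

/-- boundary map -/
def bdry {Z X U : Sch k} (i : Z ⟶ X) (j : U ⟶ X) (h : IsPair i j) {a b : ℤ}
    (x : T.H (a + 1) b U) : T.H a b Z := T.bd i j h a b x

/-- pull-back -/
def pull {U B : Sch k} (q : U ⟶ B) (d : ℕ) (h : LocTriv q.left d) {a b a' b' : ℤ}
    (ha : a' = a + 2 * d) (hb : b' = b + d) (x : T.H a b B) : T.H a' b' U :=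
  T.fH q d h a b a' b' ha hb x

/-- pull-back of cycles -/
def pullC {U B : Sch k} (q : U ⟶ B) (d : ℕ) (h : LocTriv q.left d) {n n' : ℕ}
    (hn : n' = n + d) (x : T.CH n B) : T.CH n' U := T.fC q d h n n' hn x

end Maps

/-- Cycle classes are Galois invariant; push-forward, restriction and pull-back commute with the
action of the Galois group. -/
structure Galois (T : Maps k K G) : Prop where
  gal_cl : ∀ (j : ℕ) (X : Sch k) (s : G) (x : T.CH j X), T.act s (T.cyc x) = T.cyc x
  gal_p : ∀ {Z X : Sch k} (i : Z ⟶ X) (h : IsClosedImmersion i.left) (a b : ℤ) (s : G)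
    (x : T.H a b Z), T.act s (T.push i h x) = T.push i h (T.act s x)
  gal_r : ∀ {U X : Sch k} (j : U ⟶ X) (h : IsOpenImmersion j.left) (a b : ℤ) (s : G)
    (x : T.H a b X), T.act s (T.rest j h x) = T.rest j h (T.act s x)
  gal_f : ∀ {U B : Sch k} (q : U ⟶ B) (d : ℕ) (h : LocTriv q.left d) (a b a' b' : ℤ)
    (ha : a' = a + 2 * d) (hb : b' = b + d) (s : G) (x : T.H a b B),
    T.act s (T.pull q d h ha hb x) = T.pull q d h ha hb (T.act s x)

/-- Push-forward, restriction and pull-back commute with the cycle class maps. -/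
structure CycleMap (T : Maps k K G) : Prop where
  cl_p : ∀ {Z X : Sch k} (i : Z ⟶ X) (h : IsClosedImmersion i.left) (j : ℕ) (x : T.CH j Z),
    IsVar X → T.cyc (T.pushC i h x) = T.push i h (T.cyc x)
  cl_r : ∀ {U X : Sch k} (u : U ⟶ X) (h : IsOpenImmersion u.left) (j : ℕ) (x : T.CH j X),
    IsVar X → T.cyc (T.restC u h x) = T.rest u h (T.cyc x)
  cl_f : ∀ {U B : Sch k} (q : U ⟶ B) (d : ℕ) (h : LocTriv q.left d) (j j' : ℕ) (hj : j' = j + d)
    (ha : (2 * j' : ℤ) = 2 * j + 2 * d) (hb : (j' : ℤ) = j + d) (x : T.CH j B),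
    IsVar B → T.cyc (T.pullC q d h hj x) = T.pull q d h ha hb (T.cyc x)

/-- The localisation sequences. -/
structure Localisation (T : Maps k K G) : Prop where
  /-- the localisation sequence of Chow groups -/
  surjC : ∀ {Z X U : Sch k} (i : Z ⟶ X) (j : U ⟶ X) (h : IsPair i j), IsVar X → ∀ (n : ℕ)
    (y : T.CH n U), ∃ x : T.CH n X, T.restC j h.oi x = y
  exC : ∀ {Z X U : Sch k} (i : Z ⟶ X) (j : U ⟶ X) (h : IsPair i j), IsVar X → ∀ (n : ℕ)
    (x : T.CH n X), T.restC j h.oi x = 0 → ∃ z, T.pushC i h.ci z = x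
  /-- the localisation sequence of homology: exactness at `H_a(X)` and at `H_a(Z)` -/
  exH : ∀ {Z X U : Sch k} (i : Z ⟶ X) (j : U ⟶ X) (h : IsPair i j), IsVar X → ∀ (a b : ℤ)
    (x : T.H a b X), T.rest j h.oi x = 0 → ∃ z, T.push i h.ci z = x
  exH' : ∀ {Z X U : Sch k} (i : Z ⟶ X) (j : U ⟶ X) (h : IsPair i j), IsVar X → ∀ (a b : ℤ)
    (z : T.H a b Z), T.push i h.ci z = 0 → ∃ y, T.bdry i j h y = z
  /-- the boundary maps commute with push-forward, for closed subschemes `Z ⊆ X' ⊆ X` -/
  bd_p : ∀ {Z X X' U U' : Sch k} (i : Z ⟶ X) (j : U ⟶ X) (h : IsPair i j) (i' : Z ⟶ X')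
    (j' : U' ⟶ X') (h' : IsPair i' j') (c : X' ⟶ X) (u : U' ⟶ U) (_ : IsClosedImmersion c.left)
    (hu : IsClosedImmersion u.left), IsVar X → i' ≫ c = i → j' ≫ c = u ≫ j → ∀ (a b : ℤ)
    (y : T.H (a + 1) b U'), T.bdry i j h (T.push u hu y) = T.bdry i' j' h' y

/-- Properties of locally trivial bundles of affine spaces. -/
structure Bundles (T : Maps k K G) : Prop where
  /-- homotopy invariance -/
  injH : ∀ {U B : Sch k} (q : U ⟶ B) (d : ℕ) (h : LocTriv q.left d), IsVar B →
    ∀ (a b a' b' : ℤ) (ha : a' = a + 2 * d) (hb : b' = b + d) (x : T.H a b B),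
    T.pull q d h ha hb x = 0 → x = 0
  surjH : ∀ {U B : Sch k} (q : U ⟶ B) (d : ℕ) (h : LocTriv q.left d), IsVar B →
    ∀ (a b a' b' : ℤ) (ha : a' = a + 2 * d) (hb : b' = b + d) (y : T.H a' b' U),
    ∃ x : T.H a b B, T.pull q d h ha hb x = y
  surjC : ∀ {U B : Sch k} (q : U ⟶ B) (d : ℕ) (h : LocTriv q.left d), IsVar B →
    ∀ (n n' : ℕ) (hn : n' = n + d) (y : T.CH n' U), ∃ x : T.CH n B, T.pullC q d h hn x = y
  /-- cycles of dimension less than `n` on the affine space `𝔸^n` are rationally equivalent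
  to zero -/
  chAff : ∀ n m : ℕ, m < n → ∀ x : T.CH m (aff k (MvPolynomial (Fin n) k)), x = 0
  /-- the zero scheme `U` of a function on `W` has trivial normal bundle: if `W` and `U` are
  bundles of affine spaces over `B`, the push-forward to `W` of a class on `U` which comes
  from `B` is zero -/
  normal : ∀ {U W B : Sch k} (u : U ⟶ W) (hu : IsClosedImmersion u.left) (p : W ⟶ B) (d : ℕ)
    (_ : LocTriv p.left (d + 1)) (hq : LocTriv (u ≫ p).left d), IsZeroScheme u → IsVar B →
    ∀ (a b a' b' : ℤ) (ha : a' = a + 2 * d) (hb : b' = b + d) (x : T.H a b B),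
    T.push u hu (T.pull (u ≫ p) d hq ha hb x) = 0

end

/-- The formal properties of the `ℓ`-adic étale Borel–Moore homology (`K = ℚ_ℓ`) of varieties over
a field `k` with Galois group `G`, of the Chow groups and of the cycle class maps. -/
structure Theory (k K G : Type) [Field k] [Field K] [Group G] extends Maps k K G where
  galois : Galois toMaps
  cycleMap : CycleMap toMaps
  loc : Localisation toMaps
  bundles : Bundles toMaps
  /-- the homology of the empty scheme -/
  empty : ∀ X : Sch k, IsEmpty X.left → ∀ (a b : ℤ) (x : H a b X), x = 0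
  /-- characteristic zero: a Galois invariant class in degree `2j` and twist `j` (hence of
  weight `0`) which is a push-forward is the push-forward of an invariant class, since the weight
  zero parts are realisations of semisimple motives -/
  lift : CharZero k → ∀ {Z X : Sch k} (i : Z ⟶ X) (h : IsClosedImmersion i.left), IsVar X →
    ∀ (j : ℕ) (z : H (2 * j) j Z),
    (∀ s, toMaps.act s (toMaps.push i h z) = toMaps.push i h z) →
    ∃ z' : H (2 * j) j Z, (∀ s, toMaps.act s z' = z') ∧ toMaps.push i h z' = toMaps.push i h z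

/-- Question 1 for `X` in dimension `j`: the cycle class map `c_j` from `CH_j(X)` to the Galois
invariants of the homology of `X` in degree `2j` and twist `j` is surjective. -/
def Theory.Q1 {k K G : Type} [Field k] [Field K] [Group G] (T : Theory k K G) (j : ℕ)
    (X : Sch k) : Prop :=
  ∀ x : T.H (2 * j) j X, (∀ s, T.act s x = x) → ∃ z : T.CH j X, T.cyc z = x

namespace Theory

variable {k K G : Type} [Field k] [Field K] [Group G] (T : Theory k K G)

theorem q1_iff (j : ℕ) (X : Sch k) : T.Q1 j X ↔ ∀ x : T.H (2 * j) j X,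
    (∀ s, T.gal (2 * j) j X s x = x) → ∃ z : T.CH j X, T.cl j X z = x := Iff.rfl

theorem gal_cl (j : ℕ) (X : Sch k) (s : G) (x : T.CH j X) :
    T.gal (2 * j) j X s (T.cl j X x) = T.cl j X x := T.galois.gal_cl j X s x

theorem gal_p {Z X : Sch k} (i : Z ⟶ X) (h : IsClosedImmersion i.left) (a b : ℤ) (s : G)
    (x : T.H a b Z) : T.gal a b X s (T.pH i h a b x) = T.pH i h a b (T.gal a b Z s x) :=
  T.galois.gal_p i h a b s x

theorem gal_r {U X : Sch k} (j : U ⟶ X) (h : IsOpenImmersion j.left) (a b : ℤ) (s : G)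
    (x : T.H a b X) : T.gal a b U s (T.rH j h a b x) = T.rH j h a b (T.gal a b X s x) :=
  T.galois.gal_r j h a b s x

theorem gal_f {U B : Sch k} (q : U ⟶ B) (d : ℕ) (h : LocTriv q.left d) (a b a' b' : ℤ)
    (ha : a' = a + 2 * d) (hb : b' = b + d) (s : G) (x : T.H a b B) :
    T.gal a' b' U s (T.fH q d h a b a' b' ha hb x) =
      T.fH q d h a b a' b' ha hb (T.gal a b B s x) :=
  T.galois.gal_f q d h a b a' b' ha hb s x

theorem cl_p {Z X : Sch k} (i : Z ⟶ X) (h : IsClosedImmersion i.left) (j : ℕ) (x : T.CH j Z)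
    (hX : IsVar X) : T.cl j X (T.pC i h j x) = T.pH i h _ _ (T.cl j Z x) :=
  T.cycleMap.cl_p i h j x hX

theorem cl_r {U X : Sch k} (u : U ⟶ X) (h : IsOpenImmersion u.left) (j : ℕ) (x : T.CH j X)
    (hX : IsVar X) : T.cl j U (T.rC u h j x) = T.rH u h _ _ (T.cl j X x) :=
  T.cycleMap.cl_r u h j x hX

theorem cl_f {U B : Sch k} (q : U ⟶ B) (d : ℕ) (h : LocTriv q.left d) (j j' : ℕ)
    (hj : j' = j + d) (ha : (2 * j' : ℤ) = 2 * j + 2 * d) (hb : (j' : ℤ) = j + d)
    (x : T.CH j B) (hB : IsVar B) :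
    T.cl j' U (T.fC q d h j j' hj x) = T.fH q d h _ _ _ _ ha hb (T.cl j B x) :=
  T.cycleMap.cl_f q d h j j' hj ha hb x hB

theorem surjC {Z X U : Sch k} (i : Z ⟶ X) (j : U ⟶ X) (h : IsPair i j) (hX : IsVar X) (n : ℕ) :
    Function.Surjective (T.rC j h.oi n) := T.loc.surjC i j h hX n

theorem exC {Z X U : Sch k} (i : Z ⟶ X) (j : U ⟶ X) (h : IsPair i j) (hX : IsVar X) (n : ℕ)
    (x : T.CH n X) (hx : T.rC j h.oi n x = 0) : ∃ z, T.pC i h.ci n z = x :=
  T.loc.exC i j h hX n x hx

theorem exH {Z X U : Sch k} (i : Z ⟶ X) (j : U ⟶ X) (h : IsPair i j) (hX : IsVar X) (a b : ℤ)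
    (x : T.H a b X) (hx : T.rH j h.oi a b x = 0) : ∃ z, T.pH i h.ci a b z = x :=
  T.loc.exH i j h hX a b x hx

theorem exH' {Z X U : Sch k} (i : Z ⟶ X) (j : U ⟶ X) (h : IsPair i j) (hX : IsVar X) (a b : ℤ)
    (z : T.H a b Z) (hz : T.pH i h.ci a b z = 0) : ∃ y, T.bd i j h a b y = z :=
  T.loc.exH' i j h hX a b z hz

theorem bd_p {Z X X' U U' : Sch k} (i : Z ⟶ X) (j : U ⟶ X) (h : IsPair i j) (i' : Z ⟶ X')
    (j' : U' ⟶ X') (h' : IsPair i' j') (c : X' ⟶ X) (u : U' ⟶ U) (hc : IsClosedImmersion c.left)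
    (hu : IsClosedImmersion u.left) (hX : IsVar X) (h1 : i' ≫ c = i) (h2 : j' ≫ c = u ≫ j)
    (a b : ℤ) (y : T.H (a + 1) b U') :
    T.bd i j h a b (T.pH u hu _ b y) = T.bd i' j' h' a b y :=
  T.loc.bd_p i j h i' j' h' c u hc hu hX h1 h2 a b y

theorem bundleH {U B : Sch k} (q : U ⟶ B) (d : ℕ) (h : LocTriv q.left d) (hB : IsVar B)
    (a b a' b' : ℤ) (ha : a' = a + 2 * d) (hb : b' = b + d) :
    Function.Bijective (T.fH q d h a b a' b' ha hb) :=
  ⟨(injective_iff_map_eq_zero _).mpr (T.bundles.injH q d h hB a b a' b' ha hb),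
    T.bundles.surjH q d h hB a b a' b' ha hb⟩

theorem bundleC {U B : Sch k} (q : U ⟶ B) (d : ℕ) (h : LocTriv q.left d) (hB : IsVar B)
    (n n' : ℕ) (hn : n' = n + d) : Function.Surjective (T.fC q d h n n' hn) :=
  T.bundles.surjC q d h hB n n' hn

theorem chAff (n m : ℕ) (h : m < n) : Subsingleton (T.CH m (aff k (MvPolynomial (Fin n) k))) :=
  subsingleton_of_forall_eq 0 (T.bundles.chAff n m h)

theorem normal {U W B : Sch k} (u : U ⟶ W) (hu : IsClosedImmersion u.left) (p : W ⟶ B) (d : ℕ)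
    (hp : LocTriv p.left (d + 1)) (hq : LocTriv (u ≫ p).left d) (hz : IsZeroScheme u)
    (hB : IsVar B) (a b a' b' : ℤ) (ha : a' = a + 2 * d) (hb : b' = b + d) (x : T.H a b B) :
    T.pH u hu a' b' (T.fH (u ≫ p) d hq a b a' b' ha hb x) = 0 :=
  T.bundles.normal u hu p d hp hq hz hB a b a' b' ha hb x

theorem empty' (X : Sch k) (hX : IsEmpty X.left) (a b : ℤ) : Subsingleton (T.H a b X) :=
  subsingleton_of_forall_eq 0 (T.empty X hX a b)

theorem lift' (h0 : CharZero k) {Z X : Sch k} (i : Z ⟶ X) (h : IsClosedImmersion i.left)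
    (hX : IsVar X) (j : ℕ) (z : T.H (2 * j) j Z)
    (hz : ∀ s, T.gal (2 * j) j X s (T.pH i h (2 * j) j z) = T.pH i h (2 * j) j z) :
    ∃ z' : T.H (2 * j) j Z, (∀ s, T.gal (2 * j) j Z s z' = z') ∧
      T.pH i h (2 * j) j z' = T.pH i h (2 * j) j z := T.lift h0 i h hX j z hz

end Theory

end Pool.Agent.TH376.TC
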